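import Pool.Agent.V7H2.LT.Cat

/-!
# The relations of a Lefschetz map
-/

set_option autoImplicit false
set_option linter.unusedSectionVars false

open Finset CategoryTheory

namespace Pool.Agent.V7H2.LT

section ring

variable {A : Type*} [Ring A] [Algebra ℚ A]

/-- Inverses of the Lefschetz maps `L ^ (n - i)` between the pieces of weights `i` and `2 n - i`,
for `i < d`. -/
structure Inv (n d : ℕ) (e : ℕ → A) (L : A) (θ : ℕ → A) : Prop where
  left : ∀ i < d, e i * θ i = θ i
  right : ∀ i < d, θ i * e (2 * n - i) = θ i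
  one : ∀ i < d, θ i * L ^ (n - i) * e i = e i
  two : ∀ i < d, e (2 * n - i) * L ^ (n - i) * θ i = e (2 * n - i)

variable {d m : ℕ} {e : ℕ → A} {L : A} {θ : ℕ → A}

/-- The projector on the low weights. -/
def lowP (d : ℕ) (e : ℕ → A) : A := ∑ i ∈ range d, e i

/-- The projector on the high weights. -/
def highP (n d : ℕ) (e : ℕ → A) : A := ∑ i ∈ range d, e (2 * n - i)

/-- The sum of the `θ i L ^ (d - i)`. -/
def tau (d : ℕ) (L : A) (θ : ℕ → A) : A := ∑ i ∈ range d, θ i * L ^ (d - i)

/-- The sum of the `L ^ (d - i) θ i`. -/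
def tau' (d : ℕ) (L : A) (θ : ℕ → A) : A := ∑ i ∈ range d, L ^ (d - i) * θ i

variable (h : Dec e (2 * (d + m) + 1))

include h

lemma mul_lowP (i : ℕ) : e i * lowP d e = if i < d then e i else 0 := by
  rw [lowP, mul_sum]
  simp_rw [h.mul]
  rw [sum_ite_eq]
  simp only [mem_range]

lemma lowP_mul (i : ℕ) : lowP d e * e i = if i < d then e i else 0 := by
  rw [lowP, sum_mul]
  simp_rw [h.mul]
  rw [sum_ite_eq']
  simp only [mem_range]

lemma lowP_idem : lowP d e * lowP d e = lowP d e := by
  nth_rewrite 1 [lowP]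
  rw [sum_mul]
  exact sum_congr rfl fun i hi => by rw [mul_lowP h, if_pos (mem_range.1 hi)]

lemma mul_highP (k : ℕ) : e k * highP (d + m) d e = if d + 2 * m < k then e k else 0 := by
  rw [highP, mul_sum]
  simp_rw [h.mul]
  by_cases hk : d + 2 * m < k
  · rw [if_pos hk]
    by_cases hk2 : 2 * (d + m) < k
    · rw [h.out k (by omega)]
      simp
    · rw [sum_eq_single (2 * (d + m) - k)]
      · rw [if_pos (by omega)]
      · intro b hb hbk
        rw [mem_range] at hb
        rw [if_neg (by omega)]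
      · intro hb
        rw [mem_range] at hb
        omega
  · rw [if_neg hk]
    refine sum_eq_zero fun i hi => ?_
    rw [mem_range] at hi
    rw [if_neg (by omega)]

lemma highP_mul (k : ℕ) : highP (d + m) d e * e k = if d + 2 * m < k then e k else 0 := by
  rw [highP, sum_mul]
  simp_rw [h.mul]
  by_cases hk : d + 2 * m < k
  · rw [if_pos hk]
    by_cases hk2 : 2 * (d + m) < k
    · rw [h.out k (by omega)]
      refine sum_eq_zero fun i hi => ?_
      rw [if_neg (by omega)]
    · rw [sum_eq_single (2 * (d + m) - k)]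
      · rw [if_pos (by omega)]
        congr 1
        omega
      · intro b hb hbk
        rw [mem_range] at hb
        rw [if_neg (by omega)]
      · intro hb
        rw [mem_range] at hb
        omega
  · rw [if_neg hk]
    refine sum_eq_zero fun i hi => ?_
    rw [mem_range] at hi
    rw [if_neg (by omega)]

lemma highP_idem : highP (d + m) d e * highP (d + m) d e = highP (d + m) d e := by
  nth_rewrite 1 [highP]
  rw [sum_mul]
  exact sum_congr rfl fun i hi => by
    rw [mem_range] at hi
    rw [mul_highP h, if_pos (by omega)]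

lemma low_lowP : Low e 0 (lowP d e) := Low.sum fun i _ => Low.idem h i

lemma low_highP : Low e 0 (highP (d + m) d e) := Low.sum fun _ _ => Low.idem h _

variable (hL : Low e 2 L) (hθ : Inv (d + m) d e L θ)

include hL hθ

lemma low_theta {i : ℕ} (hi : i < d) : Low e (2 * i - 2 * (d + m)) (θ i) := by
  refine Low.of_comp h (k := i) (l := 2 * (d + m) - i) ?_ (by omega)
  rw [hθ.left i hi, hθ.right i hi]

lemma low_tau : Low e (-(2 * m)) (tau d L θ) := by
  refine Low.sum fun i hi => ?_
  rw [mem_range] at hi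
  have h1 := Low.mul h (low_theta h hL hθ hi) (hL.pow h (d - i))
  refine h1.mono ?_
  push_cast [Nat.cast_sub hi.le]
  omega

lemma low_tau' : Low e (-(2 * m)) (tau' d L θ) := by
  refine Low.sum fun i hi => ?_
  rw [mem_range] at hi
  have h1 := Low.mul h (hL.pow h (d - i)) (low_theta h hL hθ hi)
  refine h1.mono ?_
  push_cast [Nat.cast_sub hi.le]
  omega

omit hL in
lemma mul_theta (i j : ℕ) (hj : j < d) : e i * θ j = if i = j then θ j else 0 := by
  split_ifs with hij
  · rw [hij, hθ.left j hj]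
  · rw [← hθ.left j hj, ← mul_assoc, h.orth hij, zero_mul]

omit hL in
lemma theta_mul (i k : ℕ) (hi : i < d) : θ i * e k = if k = 2 * (d + m) - i then θ i else 0 := by
  split_ifs with hij
  · rw [hij, hθ.right i hi]
  · rw [← hθ.right i hi, mul_assoc, h.orth (Ne.symm hij), mul_zero]

omit hL in
lemma mul_tau {i : ℕ} (hi : i < d) : e i * tau d L θ = θ i * L ^ (d - i) := by
  rw [tau, mul_sum, sum_eq_single i]
  · rw [← mul_assoc, hθ.left i hi]
  · intro j hj hji
    rw [mem_range] at hj
    rw [← mul_assoc, mul_theta h hθ i j hj, if_neg (Ne.symm hji), zero_mul]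
  · intro hi'
    exact absurd (mem_range.2 hi) hi'

omit hL in
lemma tau'_mul {i : ℕ} (hi : i < d) : tau' d L θ * e (2 * (d + m) - i) = L ^ (d - i) * θ i := by
  rw [tau', sum_mul, sum_eq_single i]
  · rw [mul_assoc, hθ.right i hi]
  · intro j hj hji
    rw [mem_range] at hj
    rw [mul_assoc, theta_mul h hθ j _ hj, if_neg (by omega), mul_zero]
  · intro hi'
    exact absurd (mem_range.2 hi) hi'

omit hL in
lemma lowP_tau : lowP d e * tau d L θ = tau d L θ := by
  rw [tau, mul_sum]
  refine sum_congr rfl fun i hi => ?_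
  rw [mem_range] at hi
  rw [← mul_assoc, ← hθ.left i hi, ← mul_assoc, lowP_mul h, if_pos hi]

omit hL in
lemma tau'_highP : tau' d L θ * highP (d + m) d e = tau' d L θ := by
  rw [tau', sum_mul]
  refine sum_congr rfl fun i hi => ?_
  rw [mem_range] at hi
  rw [mul_assoc, ← hθ.right i hi, mul_assoc, mul_highP h, if_pos (by omega)]

/-- The inverse of the low part. -/
theorem exists_W {c : ℚ} (hc : c ≠ 0) (S : Subalgebra ℚ A) (hpS : lowP d e ∈ S)
    (hxS : tau d L θ * (c • L ^ m) * lowP d e ∈ S) :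
    ∃ W ∈ S, W * tau d L θ * (c • L ^ m) * lowP d e = lowP d e := by
  have hx : Low e (-1) (tau d L θ * (c • L ^ m) * lowP d e - c • lowP d e) := by
    apply Low.strict
    · refine Low.sub ?_ ((low_lowP h).smul c)
      have h1 := Low.mul h (Low.mul h (low_tau h hL hθ) ((hL.pow h m).smul c)) (low_lowP h)
      exact h1.mono (by omega)
    · intro i
      by_cases hi : i < d
      · have h1 : e i * (tau d L θ * (c • L ^ m) * lowP d e - c • lowP d e) * e i =
            (e i * tau d L θ) * (c • L ^ m) * (lowP d e * e i) - c • ((e i * lowP d e) * e i) := by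
          simp only [mul_sub, sub_mul, mul_assoc, mul_smul_comm, smul_mul_assoc]
        rw [h1, mul_tau h hθ hi, lowP_mul h, if_pos hi, mul_lowP h, if_pos hi, h.idem,
          mul_smul_comm, smul_mul_assoc, mul_assoc (θ i), ← pow_add,
          show d - i + m = d + m - i by omega, hθ.one i hi, sub_self]
      · have h1 : e i * (tau d L θ * (c • L ^ m) * lowP d e - c • lowP d e) * e i =
            (e i * tau d L θ) * (c • L ^ m) * (lowP d e * e i) - c • (e i * (lowP d e * e i)) := by
          simp only [mul_sub, sub_mul, mul_assoc, mul_smul_comm, smul_mul_assoc]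
        rw [h1, lowP_mul h, if_neg hi, mul_zero, mul_zero, smul_zero, sub_zero]
  obtain ⟨W, hW, h1, h2, h3, h4, h5⟩ := exists_inverse h hc (lowP_idem h) (low_lowP h)
    (x := tau d L θ * (c • L ^ m) * lowP d e) (by rw [← mul_assoc, ← mul_assoc, lowP_tau h hθ])
    (by rw [mul_assoc, lowP_idem h]) hx S hpS hxS
  refine ⟨W, hW, ?_⟩
  rw [← mul_assoc, ← mul_assoc] at h3
  exact h3

/-- The inverse of the high part. -/
theorem exists_W' {c : ℚ} (hc : c ≠ 0) (S : Subalgebra ℚ A) (hpS : highP (d + m) d e ∈ S)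
    (hxS : highP (d + m) d e * (c • L ^ m) * tau' d L θ ∈ S) :
    ∃ W ∈ S, highP (d + m) d e * (c • L ^ m) * tau' d L θ * W = highP (d + m) d e ∧
      W * highP (d + m) d e = W := by
  have hx : Low e (-1) (highP (d + m) d e * (c • L ^ m) * tau' d L θ - c • highP (d + m) d e) := by
    apply Low.strict
    · refine Low.sub ?_ ((low_highP h).smul c)
      have h1 := Low.mul h (Low.mul h (low_highP h) ((hL.pow h m).smul c)) (low_tau' h hL hθ)
      exact h1.mono (by omega)
    · intro k
      by_cases hk : d + 2 * m < k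
      · by_cases hk2 : 2 * (d + m) < k
        · rw [h.out k (by omega), mul_zero]
        obtain ⟨i, hi, rfl⟩ : ∃ i, i < d ∧ k = 2 * (d + m) - i := ⟨2 * (d + m) - k, by omega, by omega⟩
        set k := 2 * (d + m) - i with hkdef
        have h1 : e k * (highP (d + m) d e * (c • L ^ m) * tau' d L θ - c • highP (d + m) d e) * e k =
            (e k * highP (d + m) d e) * (c • L ^ m) * (tau' d L θ * e k) -
              c • ((e k * highP (d + m) d e) * e k) := by
          simp only [mul_sub, sub_mul, mul_assoc, mul_smul_comm, smul_mul_assoc]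
        rw [h1, mul_highP h, if_pos hk, tau'_mul h hθ hi, h.idem, mul_smul_comm, smul_mul_assoc,
          mul_assoc (e k), ← mul_assoc (L ^ m), ← pow_add, ← mul_assoc,
          show m + (d - i) = d + m - i by omega, hθ.two i hi, sub_self]
      · have h1 : e k * (highP (d + m) d e * (c • L ^ m) * tau' d L θ - c • highP (d + m) d e) * e k =
            (e k * highP (d + m) d e) * (c • L ^ m) * (tau' d L θ * e k) -
              c • ((e k * highP (d + m) d e) * e k) := by
          simp only [mul_sub, sub_mul, mul_assoc, mul_smul_comm, smul_mul_assoc]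
        rw [h1, mul_highP h, if_neg hk, zero_mul, zero_mul, zero_mul, smul_zero, sub_zero]
  obtain ⟨W, hW, h1, h2, h3, h4, h5⟩ := exists_inverse h hc (highP_idem h) (low_highP h)
    (x := highP (d + m) d e * (c • L ^ m) * tau' d L θ)
    (by rw [← mul_assoc, ← mul_assoc, highP_idem h])
    (by rw [mul_assoc, tau'_highP h hθ]) hx S hpS hxS
  exact ⟨W, hW, h4, h2⟩

omit hθ in
/-- (R3) -/
lemma uv_zero (c : ℚ) {i k : ℕ} (hi : i < d) (hk : d + 2 * m < k) :
    e k * (c • L ^ m) * e i = 0 :=
  (hL.pow h m).smul c i k (by omega)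

end ring

section cat

universe v' u'

variable {𝒞 : Type u'} [Category.{v'} 𝒞] [Preadditive 𝒞] [Linear ℚ 𝒞] {X Y : 𝒞}

/-- `α` -/
def alp (d : ℕ) (L : End Y) (θ : ℕ → End Y) (W' : End Y) (u : Y ⟶ X) : Y ⟶ X :=
  W' ≫ (tau' d L θ : End Y) ≫ u

/-- `β` -/
def bet (d m : ℕ) (e : ℕ → End Y) (L : End Y) (θ : ℕ → End Y) (W W' : End Y) (u : Y ⟶ X)
    (v : X ⟶ Y) : X ⟶ Y :=
  (𝟙 X - v ≫ (highP (d + m) d e : End Y) ≫ alp d L θ W' u) ≫ v ≫ (tau d L θ : End Y) ≫ W

/-- **The relations for a Lefschetz map.** -/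
theorem trans_of_lef {d m : ℕ} {e : ℕ → End Y} {L : End Y} {θ : ℕ → End Y}
    (h : Dec e (2 * (d + m) + 1)) (hL : Low e 2 L) {u : Y ⟶ X} {v : X ⟶ Y} {c : ℚ}
    (huv : End.of (u ≫ v) = c • L ^ m) {W W' : End Y}
    (hW : W * tau d L θ * (c • L ^ m) * lowP d e = lowP d e)
    (hW' : highP (d + m) d e * (c • L ^ m) * tau' d L θ * W' = highP (d + m) d e)
    (hW'' : W' * highP (d + m) d e = W') :
    Trans d m e u v (alp d L θ W' u) (bet d m e L θ W W' u v) := by
  set P : End Y := highP (d + m) d e with hPdef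
  set T : End Y := tau d L θ with hT
  set T' : End Y := tau' d L θ with hT'
  have huv0 : ∀ i < d, ∀ k, d + 2 * m < k → e i ≫ u ≫ v ≫ e k = 0 := by
    intro i hi k hk
    have h1 : e i ≫ u ≫ v ≫ e k = e k * End.of (u ≫ v) * e i := by
      simp only [End.mul_def, Category.assoc]
    rw [h1, huv, uv_zero h hL c hi hk]
  have huvP : ∀ i < d, e i ≫ u ≫ v ≫ P = 0 := by
    intro i hi
    have h1 : e i ≫ u ≫ v ≫ P = ∑ k ∈ range d, e i ≫ u ≫ v ≫ e (2 * (d + m) - k) := by
      simp only [← Preadditive.comp_sum]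
      rfl
    rw [h1]
    refine sum_eq_zero fun k hk => ?_
    rw [mem_range] at hk
    exact huv0 i hi _ (by omega)
  have hα : alp d L θ W' u = W' ≫ T' ≫ u := rfl
  have hβ : bet d m e L θ W W' u v =
    (𝟙 X - v ≫ P ≫ alp d L θ W' u) ≫ v ≫ T ≫ W := rfl
  have hP : alp d L θ W' u ≫ v ≫ P = P := by
    have h1 : alp d L θ W' u ≫ v ≫ P = P * End.of (u ≫ v) * T' * W' := by
      simp only [hα, End.mul_def, Category.assoc]
    rw [h1, huv, hW']
  refine ⟨h, ?_, ?_, huv0, ?_⟩
  · intro i hi
    have h1 : e i ≫ u ≫ bet d m e L θ W W' u v =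
        e i ≫ u ≫ v ≫ T ≫ W - (e i ≫ u ≫ v ≫ P) ≫ alp d L θ W' u ≫ v ≫ T ≫ W := by
      simp only [hβ, Preadditive.sub_comp, Preadditive.comp_sub, Category.id_comp, Category.assoc]
    rw [h1, huvP i hi, Limits.zero_comp, sub_zero]
    have h2 : e i ≫ u ≫ v ≫ T ≫ W = W * T * End.of (u ≫ v) * e i := by
      simp only [End.mul_def, Category.assoc]
    rw [h2, huv]
    have h3 : e i = lowP d e * e i := by rw [lowP_mul h, if_pos hi]
    rw [h3, ← mul_assoc, hW]
  · intro k hk
    have h1 : P ≫ e k = e k := by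
      have h2 := mul_highP h k
      rw [if_pos hk] at h2
      exact h2
    have h2 : alp d L θ W' u ≫ v ≫ e k = (alp d L θ W' u ≫ v ≫ P) ≫ e k := by
      simp only [Category.assoc]
      rw [h1]
    rw [h2, hP, h1]
  · have h1 : alp d L θ W' u ≫ bet d m e L θ W W' u v =
        (alp d L θ W' u - (alp d L θ W' u ≫ v ≫ P) ≫ alp d L θ W' u) ≫ v ≫ T ≫ W := by
      simp only [hβ, Preadditive.sub_comp, Preadditive.comp_sub, Category.id_comp, Category.assoc]
    have h2 : P ≫ alp d L θ W' u = alp d L θ W' u := by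
      have h3 : P ≫ W' = W' := hW''
      rw [hα, ← Category.assoc, h3]
    rw [h1, hP, h2, sub_self, Limits.zero_comp]

end cat

end Pool.Agent.V7H2.LT
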