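import Pool.Agent.Y107.Sl2Idem
import Pool.Agent.V7H2.LT.Lef

/-!
# The leading part of a triangular Lefschetz operator
-/

set_option autoImplicit false
set_option linter.unusedSectionVars false

open Finset

namespace Pool.Agent.V7H2.LT

open Pool.Agent.H914 Pool.Agent.Y107

variable {A : Type*} [Ring A] [Algebra ℚ A]

/-- `E` is the leading part of the operator `L`, and `F` completes it to an `sl(2)`-triple whose
semisimple element is the weight operator. -/
structure Lead (n : ℕ) (e : ℕ → A) (L E F : A) : Prop where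
  hom : ∀ i, E * e i = e (i + 2) * E
  low : Low e 1 (L - E)
  wt : ∀ i, (E * F - F * E) * e i = ((i : ℚ) - n) • e i
  hf : (E * F - F * E) * F - F * (E * F - F * E) = -(2 * F)

/-- The leading part. -/
def leadE (n : ℕ) (e : ℕ → A) (L : A) : A := ∑ i ∈ range (2 * n + 1), e (i + 2) * L * e i

/-- The lowering operator. -/
def leadF (n : ℕ) (θ : ℕ → A) (E : A) : A :=
  ∑ i ∈ range n, ((n - i : ℕ) : ℚ) • ∑ a ∈ range (n - i), E ^ a * θ i * E ^ (n - i - 1 - a)

section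

variable {n : ℕ} {e : ℕ → A} {L : A}

lemma leadE_mul (h : Dec e (2 * n + 1)) (i : ℕ) : leadE n e L * e i = e (i + 2) * L * e i := by
  by_cases hi : i < 2 * n + 1
  · rw [leadE, sum_mul, sum_eq_single i]
    · rw [mul_assoc, h.idem]
    · intro j _ hj
      rw [mul_assoc, h.orth hj, mul_zero]
    · intro h1
      exact absurd (mem_range.2 hi) h1
  · rw [h.out i (by omega), mul_zero, mul_zero]

lemma mul_leadE (h : Dec e (2 * n + 1)) (i : ℕ) : e (i + 2) * leadE n e L = e (i + 2) * L * e i := by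
  by_cases hi : i < 2 * n + 1
  · rw [leadE, mul_sum, sum_eq_single i]
    · rw [← mul_assoc, ← mul_assoc, h.idem]
    · intro j _ hj
      rw [← mul_assoc, ← mul_assoc, h.orth (by omega), zero_mul, zero_mul]
    · intro h1
      exact absurd (mem_range.2 hi) h1
  · rw [h.out (i + 2) (by omega), zero_mul, zero_mul, zero_mul]

lemma leadE_hom (h : Dec e (2 * n + 1)) (i : ℕ) :
    leadE n e L * e i = e (i + 2) * leadE n e L := by
  rw [leadE_mul h, mul_leadE h]

lemma leadE_low (h : Dec e (2 * n + 1)) (hL : Low e 2 L) : Low e 1 (L - leadE n e L) := by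
  intro i j hij
  rw [mul_sub, sub_mul, mul_assoc (e j) (leadE n e L), leadE_mul h]
  by_cases hj : j = i + 2
  · subst hj
    rw [← mul_assoc, ← mul_assoc, h.idem, sub_self]
  · rw [hL i j (by omega), ← mul_assoc, ← mul_assoc, h.orth hj, zero_mul, zero_mul, sub_self]

variable {E : A}

lemma pow_hom (hE : ∀ i, E * e i = e (i + 2) * E) (m i : ℕ) :
    E ^ m * e i = e (i + 2 * m) * E ^ m := by
  induction m with
  | zero => simp
  | succ m ih =>
    rw [pow_succ', mul_assoc, ih, ← mul_assoc, hE, mul_assoc]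
    rfl

/-- A homogeneous operator is triangular. -/
lemma low_of_hom (h : Dec e (2 * n + 1)) (hE : ∀ i, E * e i = e (i + 2) * E) : Low e 2 E := by
  intro i j hij
  rw [mul_assoc, hE, ← mul_assoc, h.orth (by omega), zero_mul]

lemma low_pow_sub (h : Dec e (2 * n + 1)) (hL : Low e 2 L) (hE : ∀ i, E * e i = e (i + 2) * E)
    (hLE : Low e 1 (L - E)) (m : ℕ) : Low e (2 * m - 1) (L ^ m - E ^ m) := by
  induction m with
  | zero =>
    rw [pow_zero, pow_zero, sub_self]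
    exact Low.zero _
  | succ m ih =>
    have h1 : L ^ (m + 1) - E ^ (m + 1) = (L - E) * L ^ m + E * (L ^ m - E ^ m) := by
      rw [pow_succ', pow_succ']
      noncomm_ring
    rw [h1]
    refine Low.add ?_ ?_
    · refine (Low.mul h hLE (hL.pow h m)).mono ?_
      push_cast
      omega
    · refine (Low.mul h (low_of_hom h hE) ih).mono ?_
      push_cast
      omega

/-- The leading part of a power. -/
lemma lead_pow (h : Dec e (2 * n + 1)) (hL : Low e 2 L) (hE : ∀ i, E * e i = e (i + 2) * E)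
    (hLE : Low e 1 (L - E)) (m i : ℕ) : e (i + 2 * m) * L ^ m * e i = E ^ m * e i := by
  have h1 := low_pow_sub h hL hE hLE m i (i + 2 * m) (by push_cast; omega)
  rw [mul_sub, sub_mul, sub_eq_zero] at h1
  rw [h1, mul_assoc, pow_hom hE, ← mul_assoc, h.idem]

variable {θ : ℕ → A}

/-- **From inverses of the Lefschetz maps to a triple.** -/
theorem lead_of_inv (h : Dec e (2 * n + 1)) (hL : Low e 2 L) (hθ : Inv n n e L θ) :
    Lead n e L (leadE n e L) (leadF n θ (leadE n e L)) := by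
  set E := leadE n e L with hEdef
  have hE : ∀ i, E * e i = e (i + 2) * E := leadE_hom h
  have hLE : Low e 1 (L - E) := leadE_low h hL
  have hpow := lead_pow h hL hE hLE
  have hEp := pow_hom hE
  have h2n : ∀ i < n, i + 2 * (n - i) = 2 * n - i := fun i hi => by omega
  -- the relations with the leading part
  have r1 : ∀ i < n, θ i * E ^ (n - i) = e i := by
    intro i hi
    have h1 : θ i * E ^ (n - i) = θ i * E ^ (n - i) * e i := by
      rw [mul_assoc, hEp, h2n i hi, ← mul_assoc, hθ.right i hi]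
    have h2 := hpow (n - i) i
    rw [h2n i hi] at h2
    rw [h1, mul_assoc, ← h2, ← mul_assoc, ← mul_assoc, hθ.right i hi, hθ.one i hi]
  have r2 : ∀ i < n, E ^ (n - i) * θ i = e (2 * n - i) := by
    intro i hi
    have h2 := hpow (n - i) i
    rw [h2n i hi] at h2
    rw [← hθ.left i hi, ← mul_assoc, ← h2, mul_assoc, hθ.left i hi, hθ.two i hi]
  have hcomm : E * leadF n θ E - leadF n θ E * E =
      ∑ i ∈ range n, ((n - i : ℕ) : ℚ) • (e (2 * n - i) - e i) := by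
    rw [leadF, mul_sum, sum_mul, ← sum_sub_distrib]
    refine sum_congr rfl fun i hi => ?_
    rw [mem_range] at hi
    rw [mul_smul_comm, smul_mul_assoc, ← smul_sub, mul_sum, sum_mul, ← sum_sub_distrib]
    congr 1
    have h1 : ∀ a ∈ range (n - i), E * (E ^ a * θ i * E ^ (n - i - 1 - a)) -
        E ^ a * θ i * E ^ (n - i - 1 - a) * E =
        E ^ (a + 1) * θ i * E ^ (n - i - (a + 1)) - E ^ a * θ i * E ^ (n - i - a) := by
      intro a ha
      rw [mem_range] at ha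
      rw [show n - i - a = (n - i - 1 - a) + 1 by omega, pow_succ E (n - i - 1 - a), pow_succ' E a,
        show n - i - (a + 1) = n - i - 1 - a by omega]
      simp only [mul_assoc]
    rw [sum_congr rfl h1, sum_range_sub (fun a => E ^ a * θ i * E ^ (n - i - a)), Nat.sub_self,
      pow_zero, mul_one, r2 i hi, one_mul, Nat.sub_zero, r1 i hi]
  have hwt : ∀ j, (E * leadF n θ E - leadF n θ E * E) * e j = ((j : ℚ) - n) • e j := by
    intro j
    rw [hcomm, sum_mul]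
    by_cases hj2 : 2 * n < j
    · rw [h.out j (by omega), smul_zero]
      exact sum_eq_zero fun i _ => mul_zero _
    rcases lt_trichotomy j n with hj | hj | hj
    · rw [sum_eq_single j]
      · rw [smul_mul_assoc, sub_mul, h.orth (by omega), h.idem, zero_sub, smul_neg, ← neg_smul,
          Nat.cast_sub hj.le]
        congr 1
        ring
      · intro i hi hij
        rw [mem_range] at hi
        rw [smul_mul_assoc, sub_mul, h.orth (by omega), h.orth hij, sub_self, smul_zero]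
      · intro h1
        exact absurd (mem_range.2 hj) h1
    · subst hj
      rw [sub_self, zero_smul]
      refine sum_eq_zero fun i hi => ?_
      rw [mem_range] at hi
      rw [smul_mul_assoc, sub_mul, h.orth (by omega), h.orth (by omega), sub_self, smul_zero]
    · rw [sum_eq_single (2 * n - j)]
      · rw [smul_mul_assoc, sub_mul, show 2 * n - (2 * n - j) = j by omega, h.idem,
          h.orth (by omega), sub_zero]
        congr 1
        rw [show n - (2 * n - j) = j - n by omega, Nat.cast_sub hj.le]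
      · intro i hi hij
        rw [mem_range] at hi
        rw [smul_mul_assoc, sub_mul, h.orth (by omega), h.orth (by omega), sub_self, smul_zero]
      · intro h1
        rw [mem_range] at h1
        omega
  set F := leadF n θ E with hF
  set hh := E * F - F * E with hhdef
  have hh1 : hh = ∑ j ∈ range (2 * n + 1), ((j : ℚ) - n) • e j := by
    rw [h.expand_right hh]
    exact sum_congr rfl fun j _ => hwt j
  have hwt' : ∀ j, e j * hh = ((j : ℚ) - n) • e j := by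
    intro j
    by_cases hj : j < 2 * n + 1
    · rw [hh1, mul_sum, sum_eq_single j]
      · rw [mul_smul_comm, h.idem]
      · intro i _ hi
        rw [mul_smul_comm, h.orth (Ne.symm hi), smul_zero]
      · intro h1
        exact absurd (mem_range.2 hj) h1
    · rw [h.out j (by omega), zero_mul, smul_zero]
  refine ⟨hE, hLE, hwt, ?_⟩
  have hT : ∀ i < n, ∀ a < n - i, hh * (E ^ a * θ i * E ^ (n - i - 1 - a)) -
      (E ^ a * θ i * E ^ (n - i - 1 - a)) * hh = (-2 : ℚ) • (E ^ a * θ i * E ^ (n - i - 1 - a)) := by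
    intro i hi a ha
    set b := n - i - 1 - a with hb
    set T := E ^ a * θ i * E ^ b with hTdef
    have h1 : e (i + 2 * a) * T = T := by
      rw [hTdef, ← mul_assoc, ← mul_assoc, ← hEp, mul_assoc (E ^ a), hθ.left i hi]
    have h2 : T * e (2 * n - i - 2 * b) = T := by
      rw [hTdef, mul_assoc, hEp, show 2 * n - i - 2 * b + 2 * b = 2 * n - i by omega, ← mul_assoc,
        mul_assoc (E ^ a), hθ.right i hi]
    have h3 : hh * T = (((i + 2 * a : ℕ) : ℚ) - n) • T := by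
      rw [← h1, ← mul_assoc, hwt, smul_mul_assoc]
    have h4 : T * hh = (((2 * n - i - 2 * b : ℕ) : ℚ) - n) • T := by
      rw [← h2, mul_assoc, hwt', mul_smul_comm]
    rw [h3, h4, ← sub_smul]
    congr 1
    have h5 : ((2 * n - i - 2 * b : ℕ) : ℤ) = 2 * n - i - 2 * (n - i - 1 - a) := by omega
    have h6 : ((2 * n - i - 2 * b : ℕ) : ℚ) = 2 * n - i - 2 * (n - i - 1 - a) := by
      exact_mod_cast h5
    rw [h6]
    push_cast
    ring
  have h2F : (-2 : ℚ) • F = -(2 * F) := by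
    rw [neg_smul, Algebra.smul_def, map_ofNat]
  suffices hfin : hh * F - F * hh = (-2 : ℚ) • F by
    rw [← h2F]
    exact hfin
  obtain ⟨g, hg⟩ : ∃ g, g = hh := ⟨_, rfl⟩
  rw [← hg] at hT ⊢
  rw [hF, leadF, mul_sum, sum_mul, ← sum_sub_distrib, smul_sum]
  refine sum_congr rfl fun i hi => ?_
  rw [mem_range] at hi
  rw [mul_smul_comm, smul_mul_assoc, ← smul_sub, mul_sum, sum_mul, ← sum_sub_distrib,
    smul_comm (-2 : ℚ)]
  congr 1
  rw [smul_sum]
  exact sum_congr rfl fun a ha => hT i hi a (mem_range.1 ha)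

/-- The triple of a leading part. -/
theorem Lead.sl2 (h : Dec e (2 * n + 1)) {E F : A} (t : Lead n e L E F) :
    Sl2 (E * F - F * E) E F where
  ef := rfl
  he := by
    rw [h.expand_right ((E * F - F * E) * E - E * (E * F - F * E)), h.expand_right (2 * E)]
    refine sum_congr rfl fun i _ => ?_
    have h1 : ((E * F - F * E) * E - E * (E * F - F * E)) * e i =
        (E * F - F * E) * (E * e i) - E * ((E * F - F * E) * e i) := by noncomm_ring
    rw [h1, t.hom, t.wt, ← mul_assoc, t.wt, smul_mul_assoc, ← t.hom, mul_smul_comm, ← sub_smul,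
      mul_assoc 2]
    rw [show (((i + 2 : ℕ) : ℚ) - n - ((i : ℚ) - n)) = 2 by push_cast; ring, Algebra.smul_def,
      map_ofNat]
  hf := t.hf

/-- The weight idempotents of the triple. -/
theorem Lead.wp_eq (h : Dec e (2 * n + 1)) {E F : A} (t : Lead n e L E F) {N : ℕ}
    (hE : E ^ N = 0) (hF : F ^ N = 0) (i : ℕ) :
    wp (E * F - F * E) N ((i : ℤ) - n) = e i := by
  have hs := t.sl2 h
  have h1 : ∀ j : ℕ, wp (E * F - F * E) N ((j : ℤ) - n) * e j = e j := by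
    intro j
    apply wp_of_wt hs hE hF
    rw [t.wt]
    push_cast
    rfl
  rw [h.expand_right (wp (E * F - F * E) N ((i : ℤ) - n))]
  by_cases hi : i < 2 * n + 1
  · rw [sum_eq_single i, h1]
    · intro j _ hj
      rw [← h1 j, ← mul_assoc, wp_mul hs hE hF, if_neg (by omega), zero_mul]
    · intro h2
      exact absurd (mem_range.2 hi) h2
  · rw [h.out i (by omega)]
    refine sum_eq_zero fun j hj => ?_
    rw [mem_range] at hj
    rw [← h1 j, ← mul_assoc, wp_mul hs hE hF, if_neg (by omega), zero_mul]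

/-- **Inverses of the powers of the leading part.** -/
theorem Lead.exists_inv (h : Dec e (2 * n + 1)) {E F : A} (t : Lead n e L E F) {N : ℕ}
    (hE : E ^ N = 0) (hF : F ^ N = 0) {i : ℕ} (hi : i < n) :
    ∃ g : A, g * E ^ (n - i) * e i = e i ∧ E ^ (n - i) * g = e (2 * n - i) := by
  obtain ⟨g, h1, h2, h3⟩ := exists_lefschetz_inverse (t.sl2 h) hE hF (n - i)
  have e1 : (-((n - i : ℕ) : ℤ)) = (i : ℤ) - n := by omega
  have e2 : ((n - i : ℕ) : ℤ) = ((2 * n - i : ℕ) : ℤ) - n := by omega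
  rw [e1, t.wp_eq h hE hF] at h1
  rw [e2, t.wp_eq h hE hF] at h2
  exact ⟨g, h1, h2⟩

end

section product

variable {A₁ A₂ : Type*} [Ring A₁] [Algebra ℚ A₁] [Ring A₂] [Algebra ℚ A₂]
  (i₁ : A₁ →ₐ[ℚ] A) (i₂ : A₂ →ₐ[ℚ] A)

/-- The product decomposition. -/
def pe (e₁ : ℕ → A₁) (e₂ : ℕ → A₂) (k : ℕ) : A :=
  ∑ p ∈ range (k + 1), i₁ (e₁ p) * i₂ (e₂ (k - p))

variable {i₁ i₂}

/-- Weights of operators coming from the first factor. -/
lemma low_i₁ (hc : ∀ a b, i₁ a * i₂ b = i₂ b * i₁ a) {e₁ : ℕ → A₁} {e₂ : ℕ → A₂} {n₂ : ℕ}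
    (h₂ : Dec e₂ (2 * n₂ + 1)) {s : ℤ} {a : A₁} (ha : Low e₁ s a) :
    Low (pe i₁ i₂ e₁ e₂) s (i₁ a) := by
  intro i j hij
  rw [pe, pe, sum_mul, sum_mul_sum]
  refine sum_eq_zero fun p hp => sum_eq_zero fun q hq => ?_
  rw [mem_range] at hp hq
  have h1 : i₁ (e₁ p) * i₂ (e₂ (j - p)) * i₁ a * (i₁ (e₁ q) * i₂ (e₂ (i - q))) =
      i₁ (e₁ p * a * e₁ q) * i₂ (e₂ (j - p) * e₂ (i - q)) := by
    simp only [map_mul, mul_assoc]
    rw [← mul_assoc (i₂ (e₂ (j - p))) (i₁ a), ← hc, mul_assoc (i₁ a),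
      ← mul_assoc (i₂ (e₂ (j - p))) (i₁ (e₁ q)), ← hc]
    simp only [mul_assoc]
  rw [h1]
  by_cases h2 : j - p = i - q
  · rw [ha q p (by omega), map_zero, zero_mul]
  · rw [h₂.orth h2, map_zero, mul_zero]

lemma pe_swap (hc : ∀ a b, i₁ a * i₂ b = i₂ b * i₁ a) (e₁ : ℕ → A₁) (e₂ : ℕ → A₂) :
    pe i₁ i₂ e₁ e₂ = pe i₂ i₁ e₂ e₁ := by
  funext k
  rw [pe, pe, ← sum_range_reflect]
  refine sum_congr rfl fun p hp => ?_
  rw [mem_range] at hp
  rw [hc, show k + 1 - 1 - p = k - p by omega, show k - (k - p) = p by omega]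

lemma hom_i₁ (hc : ∀ a b, i₁ a * i₂ b = i₂ b * i₁ a) {e₁ : ℕ → A₁} {e₂ : ℕ → A₂} {n₁ : ℕ}
    (h₁ : Dec e₁ (2 * n₁ + 1)) {E : A₁} (hE : ∀ i, E * e₁ i = e₁ (i + 2) * E) (k : ℕ) :
    i₁ E * pe i₁ i₂ e₁ e₂ k = pe i₁ i₂ e₁ e₂ (k + 2) * i₁ E := by
  have h01 : ∀ j < 2, e₁ j * E = 0 := by
    intro j hj
    rw [h₁.expand_right (e₁ j * E)]
    refine sum_eq_zero fun i _ => ?_
    rw [mul_assoc, hE, ← mul_assoc, h₁.orth (by omega), zero_mul]
  have h1 : ∀ p q, i₁ (e₁ p) * i₂ (e₂ q) * i₁ E = i₁ (e₁ p * E) * i₂ (e₂ q) := by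
    intro p q
    rw [mul_assoc, ← hc, ← mul_assoc, ← map_mul]
  rw [pe, pe, mul_sum, sum_mul, show k + 2 + 1 = 2 + (k + 1) by ring, sum_range_add _ 2 (k + 1)]
  rw [sum_congr rfl (g := fun _ => (0 : A)) (s₁ := range 2) (fun p hp => by
    rw [mem_range] at hp
    rw [h1, h01 p hp, map_zero, zero_mul]), sum_const_zero, zero_add]
  refine sum_congr rfl fun p hp => ?_
  rw [mem_range] at hp
  rw [h1, show 2 + p = p + 2 by ring, ← hE, map_mul, mul_assoc,
    show k + 2 - (p + 2) = k - p by omega]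

/-- **Leading parts of products.** -/
theorem lead_prod (hc : ∀ a b, i₁ a * i₂ b = i₂ b * i₁ a) {e₁ : ℕ → A₁} {e₂ : ℕ → A₂} {n₁ n₂ : ℕ}
    (h₁ : Dec e₁ (2 * n₁ + 1)) (h₂ : Dec e₂ (2 * n₂ + 1)) {L₁ E₁ F₁ : A₁} {L₂ E₂ F₂ : A₂}
    (t₁ : Lead n₁ e₁ L₁ E₁ F₁) (t₂ : Lead n₂ e₂ L₂ E₂ F₂) {a b : ℚ} (ha : a ≠ 0) (hb : b ≠ 0) :
    Lead (n₁ + n₂) (pe i₁ i₂ e₁ e₂) (a • i₁ L₁ + b • i₂ L₂) (a • i₁ E₁ + b • i₂ E₂)
      (a⁻¹ • i₁ F₁ + b⁻¹ • i₂ F₂) := by
  have hc' : ∀ a b, i₂ a * i₁ b = i₁ b * i₂ a := fun a b => (hc b a).symm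
  have hcomm : (a • i₁ E₁ + b • i₂ E₂) * (a⁻¹ • i₁ F₁ + b⁻¹ • i₂ F₂) -
      (a⁻¹ • i₁ F₁ + b⁻¹ • i₂ F₂) * (a • i₁ E₁ + b • i₂ E₂) =
      i₁ (E₁ * F₁ - F₁ * E₁) + i₂ (E₂ * F₂ - F₂ * E₂) := by
    simp only [mul_add, add_mul, smul_add, smul_mul_assoc, mul_smul_comm, smul_smul, map_sub,
      map_mul, mul_inv_cancel₀ ha, mul_inv_cancel₀ hb, inv_mul_cancel₀ ha, inv_mul_cancel₀ hb,
      one_smul]
    rw [hc' E₂ F₁, hc' F₂ E₁]
    module
  refine ⟨fun k => ?_, ?_, fun k => ?_, ?_⟩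
  · rw [add_mul, mul_add, smul_mul_assoc, smul_mul_assoc, mul_smul_comm, mul_smul_comm,
      hom_i₁ hc h₁ t₁.hom, pe_swap hc, hom_i₁ hc' h₂ t₂.hom]
  · have h3 : a • i₁ L₁ + b • i₂ L₂ - (a • i₁ E₁ + b • i₂ E₂) =
        a • i₁ (L₁ - E₁) + b • i₂ (L₂ - E₂) := by
      rw [map_sub, map_sub, smul_sub, smul_sub]
      abel
    rw [h3]
    refine Low.add ((low_i₁ hc h₂ t₁.low).smul a) (Low.smul b ?_)
    rw [pe_swap hc]
    exact low_i₁ hc' h₁ t₂.low
  · rw [hcomm, pe, mul_sum, smul_sum]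
    refine sum_congr rfl fun p hp => ?_
    rw [mem_range] at hp
    have h3 : (i₁ (E₁ * F₁ - F₁ * E₁) + i₂ (E₂ * F₂ - F₂ * E₂)) * (i₁ (e₁ p) * i₂ (e₂ (k - p))) =
        i₁ ((E₁ * F₁ - F₁ * E₁) * e₁ p) * i₂ (e₂ (k - p)) +
          i₁ (e₁ p) * i₂ ((E₂ * F₂ - F₂ * E₂) * e₂ (k - p)) := by
      rw [add_mul, ← mul_assoc, ← map_mul i₁, ← mul_assoc (i₂ _), hc', mul_assoc (i₁ (e₁ p)),
        ← map_mul i₂]
    rw [h3, t₁.wt, t₂.wt, map_smul, map_smul, smul_mul_assoc, mul_smul_comm, ← add_smul,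
      Nat.cast_sub (by omega)]
    congr 1
    push_cast
    ring
  · rw [hcomm]
    have h4 : (i₁ (E₁ * F₁ - F₁ * E₁) + i₂ (E₂ * F₂ - F₂ * E₂)) * (a⁻¹ • i₁ F₁ + b⁻¹ • i₂ F₂) -
        (a⁻¹ • i₁ F₁ + b⁻¹ • i₂ F₂) * (i₁ (E₁ * F₁ - F₁ * E₁) + i₂ (E₂ * F₂ - F₂ * E₂)) =
        a⁻¹ • i₁ ((E₁ * F₁ - F₁ * E₁) * F₁ - F₁ * (E₁ * F₁ - F₁ * E₁)) +
          b⁻¹ • i₂ ((E₂ * F₂ - F₂ * E₂) * F₂ - F₂ * (E₂ * F₂ - F₂ * E₂)) := by
      generalize E₁ * F₁ - F₁ * E₁ = g₁
      generalize E₂ * F₂ - F₂ * E₂ = g₂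
      simp only [mul_add, add_mul, smul_mul_assoc, mul_smul_comm, map_sub, map_mul, smul_sub]
      rw [hc' g₂ F₁, hc' F₂ g₁]
      module
    rw [h4, t₁.hf, t₂.hf]
    simp only [map_neg, map_mul, map_ofNat, smul_neg, mul_add, mul_smul_comm, neg_add]

/-- Triangularity of products. -/
theorem low_prod (hc : ∀ a b, i₁ a * i₂ b = i₂ b * i₁ a) {e₁ : ℕ → A₁} {e₂ : ℕ → A₂} {n₁ n₂ : ℕ}
    (h₁ : Dec e₁ (2 * n₁ + 1)) (h₂ : Dec e₂ (2 * n₂ + 1)) {L₁ : A₁} {L₂ : A₂}
    (l₁ : Low e₁ 2 L₁) (l₂ : Low e₂ 2 L₂) (a b : ℚ) :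
    Low (pe i₁ i₂ e₁ e₂) 2 (a • i₁ L₁ + b • i₂ L₂) := by
  have hc' : ∀ a b, i₂ a * i₁ b = i₁ b * i₂ a := fun a b => (hc b a).symm
  refine Low.add ((low_i₁ hc h₂ l₁).smul a) (Low.smul b ?_)
  rw [pe_swap hc]
  exact low_i₁ hc' h₁ l₂

end product

end Pool.Agent.V7H2.LT
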