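import Pool.Agent.V7H2.LT.CorCat
import Pool.Agent.V7H2.LT.Lead

/-!
# Products of triangular Lefschetz decompositions
-/

set_option autoImplicit false
set_option linter.unusedSectionVars false

open CategoryTheory AlgebraicGeometry

universe u v w

namespace Pool.Agent.V7H2.LT

open Pool.Agent.H914 Pool.Agent.H914.VarClass Pool.Agent.H914.VarClass.Obj Pool.Agent.W492.BB
  Pool.Agent.W550.Corr Pool.Agent.TH133 Pool.Agent.Y107

variable {k : Type u} [Field k] {𝒱 : VarClass k} {C : TheoryData.{u, v, 0} 𝒱 ℚ}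
  [hC : IsChowProj C] {X Z : 𝒱.Obj}

lemma tens_add_left (a b : C.A (X.prod X)) (c : C.A (Z.prod Z)) :
    tens C (a + b) c = tens C a c + tens C b c := by
  rw [tens, map_add, add_mul]
  rfl

lemma tens_add_right (c : C.A (X.prod X)) (a b : C.A (Z.prod Z)) :
    tens C c (a + b) = tens C c a + tens C c b := by
  rw [tens, map_add, mul_add]
  rfl

lemma tens_smul_left (q : ℚ) (a : C.A (X.prod X)) (c : C.A (Z.prod Z)) :
    tens C (q • a) c = q • tens C a c := by
  rw [tens, map_smul, smul_mul_assoc]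
  rfl

lemma tens_smul_right (q : ℚ) (c : C.A (X.prod X)) (a : C.A (Z.prod Z)) :
    tens C c (q • a) = q • tens C c a := by
  rw [tens, map_smul, mul_smul_comm]
  rfl

variable (C X Z)

/-- `Γ ↦ Γ × Δ_Z`. -/
noncomputable def i₁ : Cor C X →ₐ[ℚ] Cor C (X.prod Z) :=
  AlgHom.ofLinearMap
    { toFun := fun a => tens C (X := X) (Y := X) (Z := Z) (W := Z) a (dg C Z)
      map_add' := fun a b => tens_add_left (X := X) (Z := Z) a b (dg C Z)
      map_smul' := fun q a => tens_smul_left (X := X) (Z := Z) q a (dg C Z) }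
    (tens_dg C X Z)
    (fun a b => by
      have h1 := tens_comp' (C := C) (X := X) (Z := Z) b a (dg C Z) (dg C Z)
      rw [comp_dg] at h1
      exact h1.symm)

/-- `Δ ↦ Δ_X × Δ`. -/
noncomputable def i₂ : Cor C Z →ₐ[ℚ] Cor C (X.prod Z) :=
  AlgHom.ofLinearMap
    { toFun := fun a => tens C (X := X) (Y := X) (Z := Z) (W := Z) (dg C X) a
      map_add' := fun a b => tens_add_right (X := X) (Z := Z) (dg C X) a b
      map_smul' := fun q a => tens_smul_right (X := X) (Z := Z) q (dg C X) a }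
    (tens_dg C X Z)
    (fun a b => by
      have h1 := tens_comp' (C := C) (X := X) (Z := Z) (dg C X) (dg C X) b a
      rw [comp_dg] at h1
      exact h1.symm)

variable {C X Z}

lemma i₁_apply (a : Cor C X) :
    i₁ C X Z a = tens C (X := X) (Y := X) (Z := Z) (W := Z) a (dg C Z) := rfl

lemma i₂_apply (a : Cor C Z) :
    i₂ C X Z a = tens C (X := X) (Y := X) (Z := Z) (W := Z) (dg C X) a := rfl

lemma i₁_mul_i₂ (a : Cor C X) (b : Cor C Z) :
    i₁ C X Z a * i₂ C X Z b = tens C (X := X) (Y := X) (Z := Z) (W := Z) a b := by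
  have h1 := tens_comp' (C := C) (X := X) (Z := Z) (dg C X) a b (dg C Z)
  exact h1.trans (congrArg₂ (tens C (X := X) (Y := X) (Z := Z) (W := Z))
    (dg_comp C (X := X) (Y := X) a) (comp_dg C (X := Z) (Y := Z) b))

lemma i₂_mul_i₁ (a : Cor C X) (b : Cor C Z) :
    i₂ C X Z b * i₁ C X Z a = tens C (X := X) (Y := X) (Z := Z) (W := Z) a b := by
  have h1 := tens_comp' (C := C) (X := X) (Z := Z) a (dg C X) (dg C Z) b
  exact h1.trans (congrArg₂ (tens C (X := X) (Y := X) (Z := Z) (W := Z))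
    (comp_dg C (X := X) (Y := X) a) (dg_comp C (X := Z) (Y := Z) b))

lemma i₁_comm (a : Cor C X) (b : Cor C Z) :
    i₁ C X Z a * i₂ C X Z b = i₂ C X Z b * i₁ C X Z a := by
  rw [i₁_mul_i₂, i₂_mul_i₁]

lemma pe_eq (π : ℕ → Cor C X) (ρ : ℕ → Cor C Z) (n : ℕ) :
    pe (i₁ C X Z) (i₂ C X Z) π ρ n = prodCK C (X := X) (Z := Z) π ρ n := by
  exact Finset.sum_congr rfl fun p _ => i₁_mul_i₂ (π p) (ρ (n - p))

lemma i₁_mem {r : ℤ} {a : Cor C X} (ha : a ∈ crg C X r) : i₁ C X Z a ∈ crg C (X.prod Z) r := by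
  have h1 := tens_mem C (X := X) (Y := X) (Z := Z) (W := Z) ha (dg_mem C Z)
  rw [mem_crg, i₁_apply]
  have e1 : ((X.prod Z).dim : ℤ) + r = X.dim + r + Z.dim := by
    rw [dim_prod]; push_cast; ring
  rw [e1]
  exact h1

lemma i₂_mem {r : ℤ} {a : Cor C Z} (ha : a ∈ crg C Z r) : i₂ C X Z a ∈ crg C (X.prod Z) r := by
  have h1 := tens_mem C (X := X) (Y := X) (Z := Z) (W := Z) (dg_mem C X) ha
  rw [mem_crg, i₂_apply]
  have e1 : ((X.prod Z).dim : ℤ) + r = X.dim + (Z.dim + r) := by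
    rw [dim_prod]; push_cast; ring
  rw [e1]
  exact h1

lemma mulCorr_eq (D : C.A X) : C.mulCorr D = C.pull (fst X X) D * dg C X := by
  rw [← mulCorr_comp, comp_dg]

lemma mulCorr_fst (ℓ : C.A X) :
    C.mulCorr (C.pull (fst X Z) ℓ) = tens C (C.mulCorr ℓ) (dg C Z) := by
  rw [mulCorr_eq, mulCorr_eq, ← tens_dg C X Z, tens, tens, map_mul, ← C.pull_comp, ← C.pull_comp]
  have e1 : fst (X.prod Z) (X.prod Z) ≫ fst X Z = prodMap (fst X Z) (fst X Z) ≫ fst X X := by simp
  rw [e1, mul_assoc]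

lemma mulCorr_snd (ℓ : C.A Z) :
    C.mulCorr (C.pull (snd X Z) ℓ) = tens C (dg C X) (C.mulCorr ℓ) := by
  rw [mulCorr_eq, mulCorr_eq, ← tens_dg C X Z, tens, tens, map_mul, ← C.pull_comp, ← C.pull_comp]
  have e1 : fst (X.prod Z) (X.prod Z) ≫ snd X Z = prodMap (snd X Z) (snd X Z) ≫ fst Z Z := by simp
  rw [e1, ← mul_assoc, ← mul_assoc]
  congr 1
  exact ch_comm C _ _

variable {K : Type w} [Field K] {H : WeilTheoryData.{u, v, w} C K} [hH : IsWeilProj H]

lemma dec_cor {π : ℕ → C.A (X.prod X)} (h : IsCK H X π) :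
    Dec (A := Cor C X) π (2 * X.dim + 1) where
  mul i j := IsCK.mul_eq (H := H) (P := (π : ℕ → Cor C X)) h i j
  out i hi := h.out i (by omega)
  sum := h.sum

/-- The statement in terms of the ring of correspondences. -/
lemma mulCorr_cor_pow (D : C.A X) (n : ℕ) :
    (show Cor C X from C.mulCorr D) ^ n = (show Cor C X from C.mulCorr (D ^ n)) := by
  rw [← corPow_eq]
  exact mulCorr_pow D n

lemma low_cor {ℓ : C.A X} {π : ℕ → C.A (X.prod X)} (hT : TriangularLefschetz C ℓ π) :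
    Low (A := Cor C X) π 2 (show Cor C X from C.mulCorr ℓ) := by
  intro i j hij
  have h1 := hT.triangular i j (by exact_mod_cast hij)
  rw [comp_assoc] at h1
  exact h1

lemma mulCorr_crg {D : C.A X} {r : ℤ} (hD : D ∈ C.gr X r) :
    (show Cor C X from C.mulCorr D) ∈ crg C X r := mulCorr_mem hD

/-- The triple attached to a triangular Lefschetz decomposition. -/
lemma exists_lead {ℓ : C.A X} {π : ℕ → C.A (X.prod X)} (h : IsCK H X π)
    (hT : TriangularLefschetz C ℓ π) : ∃ E ∈ crg C X 1, ∃ F ∈ crg C X (-1),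
      Lead (A := Cor C X) X.dim π (show Cor C X from C.mulCorr ℓ) E F := by
  choose! θ hθ using hT.iso
  let L : Cor C X := C.mulCorr ℓ
  let e : ℕ → Cor C X := π
  let θ' : ℕ → Cor C X := θ
  have hL : Low e 2 L := low_cor hT
  have hdec : Dec e (2 * X.dim + 1) := dec_cor h
  have hInv : Inv X.dim X.dim e L θ' := by
    refine ⟨fun i hi => ?_, fun i hi => ?_, fun i hi => ?_, fun i hi => ?_⟩
    · exact (hθ i hi).2.1
    · exact (hθ i hi).2.2.1
    · have h0 : L ^ (X.dim - i) = (show Cor C X from C.mulCorr (ℓ ^ (X.dim - i))) :=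
        mulCorr_cor_pow ℓ _
      rw [h0]
      have h1 := (hθ i hi).2.2.2.1
      rw [comp_assoc] at h1
      exact h1
    · have h0 : L ^ (X.dim - i) = (show Cor C X from C.mulCorr (ℓ ^ (X.dim - i))) :=
        mulCorr_cor_pow ℓ _
      rw [h0]
      have h1 := (hθ i hi).2.2.2.2
      rw [comp_assoc] at h1
      exact h1
  have he0 : ∀ i, e i ∈ crg C X 0 := fun i => crg_zero_iff.2 (h.deg i)
  have hL1 : L ∈ crg C X 1 := mulCorr_crg hT.divisor
  have hE1 : leadE X.dim e L ∈ crg C X 1 := by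
    refine Submodule.sum_mem _ fun i _ => ?_
    have := crg_mul (crg_mul (he0 (i + 2)) hL1) (he0 i)
    rwa [zero_add, add_zero] at this
  have hθd : ∀ i < X.dim, θ' i ∈ crg C X ((i : ℤ) - X.dim) := by
    intro i hi
    rw [mem_crg, show (X.dim : ℤ) + ((i : ℤ) - X.dim) = i by ring]
    exact (hθ i hi).1
  refine ⟨leadE X.dim e L, hE1, leadF X.dim θ' (leadE X.dim e L), ?_, lead_of_inv hdec hL hInv⟩
  refine Submodule.sum_mem _ fun i hi => Submodule.smul_mem _ _ (Submodule.sum_mem _ fun a ha => ?_)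
  rw [Finset.mem_range] at hi ha
  have h1 := crg_mul (crg_mul (crg_pow hE1 a) (hθd i hi)) (crg_pow hE1 (X.dim - i - 1 - a))
  have h2 : (a : ℤ) * 1 + ((i : ℤ) - X.dim) + ((X.dim - i - 1 - a : ℕ) : ℤ) * 1 = -1 := by
    have : ((X.dim - i - 1 - a : ℕ) : ℤ) = X.dim - i - 1 - a := by omega
    rw [this]
    ring
  rwa [h2] at h1

/-- **Products of triangular Lefschetz decompositions.** -/
theorem triangular_prod {ℓ : C.A X} {ℓ' : C.A Z} {a b : ℚ} (ha : a ≠ 0) (hb : b ≠ 0)
    {π : ℕ → C.A (X.prod X)} {ρ : ℕ → C.A (Z.prod Z)} (h : IsCK H X π)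
    (hT : TriangularLefschetz C ℓ π) (h' : IsCK H Z ρ) (hT' : TriangularLefschetz C ℓ' ρ) :
    TriangularLefschetz C (a • C.pull (fst X Z) ℓ + b • C.pull (snd X Z) ℓ') (prodCK C π ρ) := by
  obtain ⟨E₁, hE₁, F₁, hF₁, t₁⟩ := exists_lead h hT
  obtain ⟨E₂, hE₂, F₂, hF₂, t₂⟩ := exists_lead h' hT'
  set lam : C.A (X.prod Z) := a • C.pull (fst X Z) ℓ + b • C.pull (snd X Z) ℓ' with hlam
  have hdeg1 : lam ∈ C.gr (X.prod Z) 1 := Submodule.add_mem _
    (Submodule.smul_mem _ _ (C.pull_mem _ hT.divisor))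
    (Submodule.smul_mem _ _ (C.pull_mem _ hT'.divisor))
  let L₁ : Cor C X := C.mulCorr ℓ
  let L₂ : Cor C Z := C.mulCorr ℓ'
  let L : Cor C (X.prod Z) := C.mulCorr lam
  have hL : L = a • i₁ C X Z L₁ + b • i₂ C X Z L₂ := by
    have h1 : C.mulCorr lam = a • tens C (C.mulCorr ℓ) (dg C Z) +
        b • tens C (dg C X) (C.mulCorr ℓ') := by
      rw [hlam, mulCorr_add, mulCorr_smul, mulCorr_smul, mulCorr_fst, mulCorr_snd]
    exact h1
  let e : ℕ → Cor C (X.prod Z) := prodCK C π ρ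
  have he : pe (i₁ C X Z) (i₂ C X Z) (π : ℕ → Cor C X) (ρ : ℕ → Cor C Z) = e :=
    funext fun n => pe_eq _ _ n
  have hCK := h.prod h'
  have hdec : Dec e (2 * (X.dim + Z.dim) + 1) := dec_cor hCK
  have hlow : Low e 2 L := by
    rw [hL, ← he]
    exact low_prod i₁_comm (dec_cor h) (dec_cor h') (low_cor hT) (low_cor hT') a b
  have t := lead_prod (i₁_comm (C := C) (X := X) (Z := Z)) (dec_cor h) (dec_cor h') t₁ t₂ ha hb
  rw [he] at t
  change Lead (X.dim + Z.dim) e (a • i₁ C X Z L₁ + b • i₂ C X Z L₂) _ _ at t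
  rw [← hL] at t
  set E : Cor C (X.prod Z) := a • i₁ C X Z E₁ + b • i₂ C X Z E₂ with hEdef
  set F : Cor C (X.prod Z) := a⁻¹ • i₁ C X Z F₁ + b⁻¹ • i₂ C X Z F₂ with hFdef
  have hE : E ∈ crg C (X.prod Z) 1 := Submodule.add_mem _ (Submodule.smul_mem _ _ (i₁_mem hE₁))
    (Submodule.smul_mem _ _ (i₂_mem hE₂))
  have hF : F ∈ crg C (X.prod Z) (-1) := Submodule.add_mem _
    (Submodule.smul_mem _ _ (i₁_mem hF₁)) (Submodule.smul_mem _ _ (i₂_mem hF₂))
  have hEN : E ^ (X.dim + Z.dim + 1) = 0 :=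
    crg_top (crg_pow hE _) (by rw [dim_prod]; push_cast; omega)
  have hFN : F ^ (X.dim + Z.dim + 1) = 0 :=
    crg_bot (crg_pow hF _) (by rw [dim_prod]; push_cast; omega)
  have hLpow : ∀ r : ℕ, L ^ r = (show Cor C (X.prod Z) from C.mulCorr (lam ^ r)) :=
    fun r => mulCorr_cor_pow lam r
  refine ⟨hdeg1, fun i j hij => ?_, fun i hi => ?_⟩
  · have h1 := hlow i j (by exact_mod_cast hij)
    rw [comp_assoc]
    exact h1
  · rw [dim_prod] at hi
    set r := X.dim + Z.dim - i with hr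
    obtain ⟨g, hg1, hg2⟩ := t.exists_inv hdec hEN hFN hi
    -- the component of degree `-r`
    have hEr : E ^ r ∈ crg C (X.prod Z) r := by
      have := crg_pow hE r
      rwa [mul_one] at this
    have he0 : ∀ i, e i ∈ crg C (X.prod Z) 0 := fun i => crg_zero_iff.2 (hCK.deg i)
    set g' := cmpc C (X.prod Z) (-r) g with hg'
    have hg'1 : g' * E ^ r * e i = e i := by
      have h1 := cmpc_map (LinearMap.mulRight ℚ (E ^ r * e i)) (r : ℤ) (fun j x hx => by
        rw [LinearMap.mulRight_apply]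
        have := crg_mul hx (crg_mul hEr (he0 i))
        rwa [add_zero] at this) (-r) g
      rw [LinearMap.mulRight_apply, LinearMap.mulRight_apply, ← mul_assoc, hg1, neg_add_cancel,
        cmpc_of_mem (he0 i), ← mul_assoc] at h1
      exact h1.symm
    have hg'2 : E ^ r * g' = e (2 * (X.dim + Z.dim) - i) := by
      have h1 := cmpc_map (LinearMap.mulLeft ℚ (E ^ r)) (r : ℤ) (fun j x hx => by
        rw [LinearMap.mulLeft_apply]
        have := crg_mul hEr hx
        rwa [add_comm] at this) (-r) g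
      rw [LinearMap.mulLeft_apply, LinearMap.mulLeft_apply, hg2, neg_add_cancel,
        cmpc_of_mem (he0 _)] at h1
      exact h1.symm
    have hg'd : g' ∈ crg C (X.prod Z) (-r) := cmpc_mem _ _
    have hi2 : i + 2 * r = 2 * (X.dim + Z.dim) - i := by omega
    have hpow : e (2 * (X.dim + Z.dim) - i) * L ^ r * e i = E ^ r * e i := by
      have := lead_pow hdec hlow t.hom t.low r i
      rwa [hi2] at this
    have hEe : E ^ r * e i = e (2 * (X.dim + Z.dim) - i) * E ^ r := by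
      have := pow_hom t.hom r i
      rwa [hi2] at this
    -- the inverse
    set θ := e i * g' * e (2 * (X.dim + Z.dim) - i) with hθ
    have hθ1 : e i * θ = θ := by rw [hθ, ← mul_assoc, ← mul_assoc, hdec.idem]
    have hθ2 : θ * e (2 * (X.dim + Z.dim) - i) = θ := by rw [hθ, mul_assoc, hdec.idem]
    have hθ3 : θ * L ^ r * e i = e i := by
      have h1 : θ * L ^ r * e i = e i * g' * (e (2 * (X.dim + Z.dim) - i) * L ^ r * e i) := by
        rw [hθ]
        simp only [mul_assoc]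
      rw [h1, hpow, mul_assoc, ← mul_assoc g', hg'1, hdec.idem]
    have hθ4 : e (2 * (X.dim + Z.dim) - i) * L ^ r * θ = e (2 * (X.dim + Z.dim) - i) := by
      have h1 : e (2 * (X.dim + Z.dim) - i) * L ^ r * θ =
          (e (2 * (X.dim + Z.dim) - i) * L ^ r * e i) * g' * e (2 * (X.dim + Z.dim) - i) := by
        rw [hθ]
        simp only [mul_assoc]
      rw [h1, hpow, hEe, mul_assoc (e _), hg'2, hdec.idem, hdec.idem]
    have hd2 : 2 * (X.prod Z).dim - i = 2 * (X.dim + Z.dim) - i := rfl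
    refine ⟨θ, ?_, ?_, ?_, ?_, ?_⟩
    · have h1 : θ ∈ crg C (X.prod Z) (-r) := by
        have := crg_mul (crg_mul (he0 i) hg'd) (he0 (2 * (X.dim + Z.dim) - i))
        rwa [zero_add, add_zero] at this
      rw [mem_crg] at h1
      have e1 : ((X.prod Z).dim : ℤ) + -(r : ℤ) = i := by
        rw [dim_prod]
        push_cast
        omega
      rw [e1] at h1
      exact h1
    · exact hθ1
    · exact hθ2
    · rw [hLpow] at hθ3
      exact (comp_assoc C (X := X.prod Z) (Y := X.prod Z) (Z := X.prod Z) (W := X.prod Z)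
        _ _ _).trans hθ3
    · rw [hLpow] at hθ4
      exact (comp_assoc C (X := X.prod Z) (Y := X.prod Z) (Z := X.prod Z) (W := X.prod Z)
        _ _ _).trans hθ4

end Pool.Agent.V7H2.LT
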