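import Pool.Agent.TH133.Ext
import Pool.Agent.V7H2.LT.ProdThm

/-!
# Curves
-/

set_option autoImplicit false
set_option linter.unusedSectionVars false

open CategoryTheory AlgebraicGeometry

universe u v w

namespace Pool.Agent.V7H2.LT

open Pool.Agent.H914 Pool.Agent.H914.VarClass Pool.Agent.H914.VarClass.Obj Pool.Agent.W492.BB
  Pool.Agent.W550.Corr Pool.Agent.TH133 Pool.Agent.Y107

variable {k : Type u} [Field k] {𝒱 : VarClass k} {C : TheoryData.{u, v, 0} 𝒱 ℚ}
  [hC : IsChowProj C] {X Y Z : 𝒱.Obj}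

lemma hasDegree_smul {x : C.A X} {q : ℚ} (r : ℚ) (h : HasDegree C x q) :
    HasDegree C (r • x) (r * q) := by
  intro Y
  rw [map_smul, map_smul, map_smul, map_smul, (h Y).1, (h Y).2, smul_smul]
  exact ⟨rfl, rfl⟩

lemma hasDegree_one (hX : X.dim ≠ 0) : HasDegree C (1 : C.A X) 0 := by
  intro Y
  rw [map_one (C.pull (fst X Y)), map_one (C.pull (snd Y X)), zero_smul]
  constructor
  · have h1 := C.push_mem (snd X Y) (C.one_mem (X.prod Y))
    rw [C.gr_neg Y _ (by rw [dim_prod]; push_cast; omega)] at h1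
    exact (Submodule.mem_bot _).1 h1
  · have h1 := C.push_mem (fst Y X) (C.one_mem (Y.prod X))
    rw [C.gr_neg Y _ (by rw [dim_prod]; push_cast; omega)] at h1
    exact (Submodule.mem_bot _).1 h1

variable {K : Type w} [Field K] {H : WeilTheoryData.{u, v, w} C K} [hH : IsWeilProj H]

/-- The action of an external product on the cohomology. -/
lemma actH_ext' (v : C.A X) (α : C.A Y) (a : H.A X) :
    H.act (H.cl (C.ext v α)) a =
      H.push (snd X Y) (H.pull (fst X Y) (H.cl v * a)) * H.cl α := by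
  rw [TheoryData.act_apply, TheoryData.ext, map_mul H.cl, H.cl_pull, H.cl_pull, ← H.proj_right,
    map_mul (H.pull (fst X Y)), mul_assoc, mul_assoc, ← H.cl_pull (snd X Y), H.cl_central]

lemma push_pull_cl {x : C.A X} {q : ℚ} (h : HasDegree C x q) (Y : 𝒱.Obj) :
    H.push (snd X Y) (H.pull (fst X Y) (H.cl x)) = H.cl (q • (1 : C.A Y)) := by
  rw [← H.cl_pull, ← H.cl_push, (h Y).1]

lemma push_pull_zero {j : ℤ} {x : H.A X} (hx : x ∈ H.gr X j) (hj : j ≠ 2 * X.dim) (Y : 𝒱.Obj) :
    H.push (snd X Y) (H.pull (fst X Y) x) = 0 := by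
  rcases lt_or_gt_of_ne hj with h | h
  · have h1 := H.push_mem (snd X Y) (H.pull_mem (fst X Y) hx)
    rw [H.gr_neg Y _ (by rw [dim_prod]; push_cast; omega)] at h1
    exact (Submodule.mem_bot _).1 h1
  · rw [gr_top H h] at hx
    rw [(Submodule.mem_bot _).1 hx, map_zero, map_zero]

/-- A top class is a multiple of the class of a zero-cycle of degree one. -/
lemma top_class {x : C.A X} (hx : x ∈ C.gr X X.dim) (h : HasDegree C x 1) {a : H.A X}
    (ha : a ∈ H.gr X (2 * X.dim)) : ∃ c : K, a = c • H.cl x := by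
  have hxm : H.cl x ∈ H.gr X (2 * X.dim) := H.cl_mem hx
  -- an element of top degree with trace zero is zero
  have h0 : ∀ y ∈ H.gr X (2 * X.dim), H.tr X y = 0 → y = 0 := by
    intro y hy hy0
    apply H.nondeg
    have h1 : H.tr X ∘ₗ LinearMap.mulLeft K y = 0 := by
      apply ext_gr H
      intro i b hb
      rw [LinearMap.comp_apply, LinearMap.mulLeft_apply, LinearMap.zero_apply]
      by_cases hi : i = 0
      · subst hi
        obtain ⟨c, rfl⟩ := hH.gr_zero X b hb
        rw [mul_smul_comm, mul_one, map_smul, hy0, smul_zero]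
      · exact tr_zero H (H.mul_mem hy hb) (by omega)
    exact fun b => LinearMap.congr_fun h1 b
  have h1 : H.tr X (H.cl x) ≠ 0 := by
    intro h2
    have h3 := h0 _ hxm h2
    have h4 := push_pull_cl (H := H) h X
    rw [h3, map_zero, map_zero, one_smul, map_one] at h4
    exact hH.one_ne_zero X h4.symm
  refine ⟨H.tr X a / H.tr X (H.cl x), ?_⟩
  rw [← sub_eq_zero]
  apply h0
  · exact Submodule.sub_mem _ ha (Submodule.smul_mem _ _ hxm)
  · rw [map_sub, map_smul, smul_eq_mul, div_mul_cancel₀ _ h1, sub_self]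

/-- The Chow-Kunneth decomposition of a curve given by a zero-cycle of degree one. -/
noncomputable def cpi (x : C.A X) (j : ℕ) : C.A (X.prod X) :=
  if j = 0 then C.ext x 1 else if j = 1 then dg C X - C.ext x 1 - C.ext 1 x else
    if j = 2 then C.ext 1 x else 0

theorem curve_ck (hX : X.dim = 1) {x : C.A X} (hx : x ∈ C.gr X 1) (h : HasDegree C x 1) :
    IsCK H X (cpi x) := by
  have hx' : x ∈ C.gr X X.dim := by rw [hX]; exact hx
  have h1 : HasDegree C (1 * x) 1 := by rwa [one_mul]
  have h1' : HasDegree C (x * 1) 1 := by rwa [mul_one]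
  have h11 : HasDegree C (1 * 1 : C.A X) 0 := by
    rw [one_mul]
    exact hasDegree_one (by omega)
  have hxx : HasDegree C (x * x) 0 := by
    have h2 : x * x = 0 := hC.gr_top X 2 _ (C.mul_mem hx hx) (by omega)
    rw [h2]
    exact hasDegree_zero
  have c00 : C.comp (C.ext x (1 : C.A X)) (C.ext x (1 : C.A X)) = C.ext x 1 := by
    rw [comp_ext_ext h1, one_smul]
  have c22 : C.comp (C.ext (1 : C.A X) x) (C.ext (1 : C.A X) x) = C.ext 1 x := by
    rw [comp_ext_ext h1', one_smul]
  have c02 : C.comp (C.ext x (1 : C.A X)) (C.ext (1 : C.A X) x) = 0 := by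
    rw [comp_ext_ext h11, zero_smul]
  have c20 : C.comp (C.ext (1 : C.A X) x) (C.ext x (1 : C.A X)) = 0 := by
    rw [comp_ext_ext hxx, zero_smul]
  have p0 : cpi x 0 = C.ext x 1 := rfl
  have p1 : cpi x 1 = dg C X - C.ext x 1 - C.ext 1 x := rfl
  have p2 : cpi x 2 = C.ext 1 x := rfl
  have p3 : ∀ j, 2 < j → cpi x j = (0 : C.A (X.prod X)) := fun j hj => by
    rw [cpi, if_neg (by omega), if_neg (by omega), if_neg (by omega)]
  have hm0 : C.ext x (1 : C.A X) ∈ C.gr (X.prod X) X.dim := by
    have := ext_mem' (C := C) hx' (C.one_mem X)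
    rwa [add_zero] at this
  have hm2 : C.ext (1 : C.A X) x ∈ C.gr (X.prod X) X.dim := by
    have := ext_mem' (C := C) (C.one_mem X) hx'
    rwa [zero_add] at this
  -- the action on the cohomology
  have a0 : ∀ (m : ℤ) (a : H.A X), a ∈ H.gr X m →
      H.act (H.cl (C.ext x (1 : C.A X))) a = if m = 0 then a else 0 := by
    intro m a ha
    rw [actH_ext']
    split_ifs with hm
    · subst hm
      obtain ⟨c, rfl⟩ := hH.gr_zero X a ha
      rw [mul_smul_comm, mul_one, map_smul, map_smul, push_pull_cl h, one_smul, smul_mul_assoc,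
        map_one, one_mul]
    · have hxm := H.mul_mem (H.cl_mem hx') ha
      rw [push_pull_zero hxm (by omega), zero_mul]
  have a2 : ∀ (m : ℤ) (a : H.A X), a ∈ H.gr X m →
      H.act (H.cl (C.ext (1 : C.A X) x)) a = if m = 2 then a else 0 := by
    intro m a ha
    rw [actH_ext', map_one, one_mul]
    split_ifs with hm
    · obtain ⟨c, rfl⟩ := top_class hx' h (a := a) (by rw [hX]; rw [hm] at ha; exact ha)
      rw [map_smul, map_smul, push_pull_cl h, one_smul, map_one, smul_mul_assoc, one_mul]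
    · rw [push_pull_zero ha (by omega), zero_mul]
  have hab : ∀ (m : ℤ) (a : H.A X), a ∈ H.gr X m → a ≠ 0 → m = 0 ∨ m = 1 ∨ m = 2 := by
    intro m a ha ha0
    have h2 := nonneg_of_mem H ha ha0
    have h3 : m ≤ 2 := by
      by_contra hcon
      rw [gr_top H (by omega)] at ha
      exact ha0 ((Submodule.mem_bot _).1 ha)
    omega
  have hsub : ∀ a : H.A X, H.act (H.cl (cpi x 1)) a =
      a - H.act (H.cl (C.ext x (1 : C.A X))) a - H.act (H.cl (C.ext (1 : C.A X) x)) a := by
    intro a
    rw [p1, map_sub, map_sub, TheoryData.act_sub, TheoryData.act_sub, actH_dg]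
  have hact : ∀ (i : ℕ) (m : ℤ) (a : H.A X), a ∈ H.gr X m →
      H.act (H.cl (cpi x i)) a = if m = i then a else 0 := by
    intro i m a ha
    by_cases ha0 : a = 0
    · subst ha0
      rw [TheoryData.act_map_zero]
      split_ifs <;> rfl
    have hm := hab m a ha ha0
    rcases (show i = 0 ∨ i = 1 ∨ i = 2 ∨ 2 < i by omega) with rfl | rfl | rfl | hi
    · rw [p0, a0 m a ha]
      rfl
    · rw [hsub, a0 m a ha, a2 m a ha]
      rcases hm with rfl | rfl | rfl
      · norm_num
      · norm_num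
      · norm_num
    · rw [p2, a2 m a ha]
      rfl
    · rw [p3 i hi, if_neg (by omega)]
      exact actH_zero H a
  have hdeg : ∀ i, cpi x i ∈ C.gr (X.prod X) X.dim := by
    intro i
    rcases (show i = 0 ∨ i = 1 ∨ i = 2 ∨ 2 < i by omega) with rfl | rfl | rfl | hi
    · exact hm0
    · rw [p1]
      exact Submodule.sub_mem _ (Submodule.sub_mem _ (dg_mem C X) hm0) hm2
    · exact hm2
    · rw [p3 i hi]
      exact Submodule.zero_mem _
  have hcomp : ∀ i j, C.comp (cpi x i) (cpi x j) = if i = j then cpi x i else 0 := by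
    intro i j
    rcases (show i = 0 ∨ i = 1 ∨ i = 2 ∨ 2 < i by omega) with rfl | rfl | rfl | hi
    · rcases (show j = 0 ∨ j = 1 ∨ j = 2 ∨ 2 < j by omega) with rfl | rfl | rfl | hj
      · rw [if_pos rfl]; exact c00
      · rw [if_neg (by omega), p0, p1, comp_sub, comp_sub, comp_dg, c00, c02, sub_self, sub_zero]
      · rw [if_neg (by omega)]; exact c02
      · rw [if_neg (by omega), p3 j hj]; exact comp_zero C _
    · rcases (show j = 0 ∨ j = 1 ∨ j = 2 ∨ 2 < j by omega) with rfl | rfl | rfl | hj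
      · rw [if_neg (by omega), p0, p1, sub_comp, sub_comp, dg_comp, c00, c20, sub_self, sub_zero]
      · rw [if_pos rfl, p1, comp_sub, comp_sub, comp_dg, sub_comp, sub_comp, sub_comp, sub_comp,
          dg_comp, dg_comp, c00, c20, c02, c22]
        abel
      · rw [if_neg (by omega), p2, p1, sub_comp, sub_comp, dg_comp, c02, c22, sub_zero, sub_self]
      · rw [if_neg (by omega), p3 j hj]; exact comp_zero C _
    · rcases (show j = 0 ∨ j = 1 ∨ j = 2 ∨ 2 < j by omega) with rfl | rfl | rfl | hj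
      · rw [if_neg (by omega)]; exact c20
      · rw [if_neg (by omega), p2, p1, comp_sub, comp_sub, comp_dg, c20, c22, sub_zero, sub_self]
      · rw [if_pos rfl]; exact c22
      · rw [if_neg (by omega), p3 j hj]; exact comp_zero C _
    · rw [p3 i hi]
      split_ifs <;> exact zero_comp C _
  refine ⟨hdeg, fun i hi => p3 i (by omega), fun i => ?_, fun i j hij => ?_, ?_, fun i a ha => ?_,
    fun i m a hm ha => ?_⟩
  · rw [hcomp, if_pos rfl]
  · rw [hcomp, if_neg hij]
  · rw [hX, show 2 * 1 + 1 = 3 by norm_num, Finset.sum_range_succ, Finset.sum_range_succ,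
      Finset.sum_range_one, p0, p1, p2]
    abel
  · rw [hact i i a ha, if_pos rfl]
  · rw [hact i m a ha, if_neg hm]

/-- Curves have triangular Lefschetz decompositions. -/
theorem curve_triangular (hX : X.dim = 1) {ℓ : C.A X} (hℓ : C.Deg 1 ℓ) {q : ℚ} (hq : q ≠ 0)
    (h : HasDegree C ℓ q) : IsCK H X (cpi (q⁻¹ • ℓ)) ∧ TriangularLefschetz C ℓ (cpi (q⁻¹ • ℓ)) := by
  set x := q⁻¹ • ℓ with hxdef
  have hx : x ∈ C.gr X 1 := Submodule.smul_mem _ _ hℓ
  have h1 : HasDegree C x 1 := by
    have := hasDegree_smul q⁻¹ h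
    rwa [inv_mul_cancel₀ hq] at this
  refine ⟨curve_ck hX hx h1, hℓ, fun i j hij => ?_, fun i hi => ?_⟩
  · have h2 : cpi x j = (0 : C.A (X.prod X)) := by
      rw [cpi, if_neg (by omega), if_neg (by omega), if_neg (by omega)]
    rw [h2]
    exact comp_zero C _
  · obtain rfl : i = 0 := by omega
    have p0 : cpi x 0 = C.ext x 1 := rfl
    have p2 : cpi x (2 * X.dim - 0) = C.ext 1 x := by rw [hX]; rfl
    rw [p0, p2, hX, Nat.sub_zero, pow_one]
    have e1 : HasDegree C (1 * x) 1 := by rwa [one_mul]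
    have e2 : HasDegree C (x * 1) 1 := by rwa [mul_one]
    have e3 : HasDegree C (ℓ * 1) q := by rwa [mul_one]
    have f1 : C.comp (C.ext x (1 : C.A X)) (C.mulCorr ℓ) = C.ext x ℓ := by
      rw [comp_mulCorr, TheoryData.ext, TheoryData.ext, map_one, mul_one, ch_comm C]
    have f2 : C.comp (C.ext (1 : C.A X) (1 : C.A X)) (C.mulCorr ℓ) = C.ext 1 ℓ := by
      rw [comp_mulCorr, TheoryData.ext, TheoryData.ext, map_one, map_one, mul_one, mul_one, one_mul]
    refine ⟨q⁻¹ • C.ext 1 1, ?_, ?_, ?_, ?_, ?_⟩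
    · have := ext_mem' (C := C) (C.one_mem X) (C.one_mem X)
      exact Submodule.smul_mem _ _ (by simpa using this)
    · rw [smul_comp', comp_ext_ext e1, one_smul]
    · rw [comp_smul', comp_ext_ext e2, one_smul]
    · rw [f1, comp_smul', comp_ext_ext e3, smul_smul, inv_mul_cancel₀ hq, one_smul]
    · rw [smul_comp', f2, smul_comp', comp_ext_ext e3, smul_smul, inv_mul_cancel₀ hq, one_smul]

end Pool.Agent.V7H2.LT
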