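import Pool.Agent.V7H2.LT.CorCat

/-!
# Lefschetz maps transport triangular Lefschetz decompositions
-/

set_option autoImplicit false
set_option linter.unusedSectionVars false

open CategoryTheory AlgebraicGeometry

universe u v w

namespace Pool.Agent.V7H2.LT

open Pool.Agent.H914 Pool.Agent.H914.VarClass Pool.Agent.H914.VarClass.Obj Pool.Agent.W492.BB
  Pool.Agent.W550.Corr Pool.Agent.TH133 Pool.Agent.Y107

variable {k : Type u} [Field k] {𝒱 : VarClass k} {C : TheoryData.{u, v, 0} 𝒱 ℚ}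
  [hC : IsChowProj C] {K : Type w} [Field K] {H : WeilTheoryData.{u, v, w} C K}
  [hH : IsWeilProj H] {X Y : 𝒱.Obj}

/-- Push-forward along a Lefschetz map is injective above the middle degree. -/
lemma push_injective {f : X ⟶ Y}
    (hf : ∀ i : ℕ, i < X.dim → ∀ a : H.A X, H.Deg i a → ∃ b : H.A Y, H.Deg i b ∧ H.up f b = a)
    {j : ℕ} (hj : X.dim < j) {x : H.A X} (hx : x ∈ H.gr X j) (h : H.push f x = 0) : x = 0 := by
  apply H.nondeg
  have h1 : H.tr X ∘ₗ LinearMap.mulLeft K x = 0 := by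
    apply ext_gr H
    intro i b hb
    rw [LinearMap.comp_apply, LinearMap.mulLeft_apply, LinearMap.zero_apply]
    by_cases hb0 : b = 0
    · rw [hb0, mul_zero, map_zero]
    have hi0 := nonneg_of_mem H hb hb0
    by_cases hij : (j : ℤ) + i = 2 * X.dim
    · obtain ⟨i', rfl⟩ := Int.eq_ofNat_of_zero_le hi0
      obtain ⟨c, hc, hcb⟩ := hf i' (by omega) b hb
      have hcb' : H.pull f c = b := hcb
      rw [← hcb', ← H.tr_push f, H.proj_right, h, zero_mul, map_zero]
    · exact tr_zero H (H.mul_mem hx hb) hij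
  intro b
  exact LinearMap.congr_fun h1 b

/-- A Lefschetz map transports triangular Lefschetz decompositions; the projectors below the
middle degree factor through those of the target. -/
theorem exists_of_map_fac {f : X ⟶ Y} {ℓ : C.A Y} (hf : IsLefschetzMap H f ℓ)
    {π : ℕ → C.A (Y.prod Y)} (hπ : IsCK H Y π) (hT : TriangularLefschetz C ℓ π) :
    ∃ ρ : ℕ → C.A (X.prod X), IsCK H X ρ ∧ TriangularLefschetz C (C.pull f ℓ) ρ ∧
      ∃ b : C.A (X.prod Y), C.Deg X.dim b ∧
        ∀ j < X.dim, ρ j = C.comp b (C.comp (π j) (C.cograph f)) := by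
  obtain ⟨hle, ⟨c, hc, hpush⟩, hsurj⟩ := hf
  obtain ⟨m, hm⟩ : ∃ m, Y.dim = X.dim + m := ⟨Y.dim - X.dim, by omega⟩
  have hpush' : C.push f 1 = c • ℓ ^ m := by
    rw [show m = Y.dim - X.dim by omega]
    exact hpush
  choose! θ hθ using hT.iso
  set d := X.dim with hd
  -- the data
  let e : ℕ → End (⟨Y⟩ : CC C) := π
  let L : End (⟨Y⟩ : CC C) := mor (C.mulCorr ℓ)
  let θ' : ℕ → End (⟨Y⟩ : CC C) := θ
  let u : (⟨Y⟩ : CC C) ⟶ ⟨X⟩ := mor (C.cograph f)
  let v : (⟨X⟩ : CC C) ⟶ ⟨Y⟩ := mor (C.graph f)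
  let M : (⟨X⟩ : CC C) ⟶ ⟨X⟩ := mor (C.mulCorr (C.pull f ℓ))
  have hdec : Dec e (2 * (d + m) + 1) := by
    rw [← hm]
    exact dec_of_isCK hπ
  have hL : Low e 2 L := by
    intro i j hij
    have h1 := hT.triangular i j (by exact_mod_cast hij)
    rw [comp_assoc] at h1
    exact h1
  have hLpow : ∀ r : ℕ, L ^ r = End.of (mor (C.mulCorr (ℓ ^ r))) := fun r => mulCorr_pow' ℓ r
  have hInv : Inv (d + m) d e L θ' := by
    refine ⟨fun i hi => ?_, fun i hi => ?_, fun i hi => ?_, fun i hi => ?_⟩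
    · exact (hθ i (by omega)).2.1
    · rw [← hm]
      exact (hθ i (by omega)).2.2.1
    · rw [← hm, hLpow]
      have h1 := (hθ i (by omega)).2.2.2.1
      rw [comp_assoc] at h1
      exact h1
    · rw [← hm, hLpow]
      have h1 := (hθ i (by omega)).2.2.2.2
      rw [comp_assoc] at h1
      exact h1
  -- degrees
  have he0 : ∀ i, mor (π i) ∈ cdeg (⟨Y⟩ : CC C) ⟨Y⟩ 0 := fun i => by
    rw [mem_cdeg, add_zero]
    exact hπ.deg i
  have hℓ : ∀ r : ℕ, ℓ ^ r ∈ C.gr Y r := by
    intro r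
    induction r with
    | zero =>
      rw [pow_zero]
      exact C.one_mem Y
    | succ r ih =>
      rw [pow_succ]
      have := C.mul_mem ih hT.divisor
      exact_mod_cast this
  have hLr : ∀ r : ℕ, (L ^ r : (⟨Y⟩ : CC C) ⟶ ⟨Y⟩) ∈ cdeg (⟨Y⟩ : CC C) ⟨Y⟩ r := fun r => by
    rw [hLpow]
    exact mulCorr_mem (hℓ r)
  have hθd : ∀ i < d, mor (θ i) ∈ cdeg (⟨Y⟩ : CC C) ⟨Y⟩ ((i : ℤ) - (d + m)) := by
    intro i hi
    rw [mem_cdeg]
    have h1 := (hθ i (by omega)).1
    have e1 : ((⟨Y⟩ : CC C).obj.dim : ℤ) + ((i : ℤ) - (d + m)) = i := by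
      change (Y.dim : ℤ) + ((i : ℤ) - (d + m)) = i
      rw [hm]
      push_cast
      ring
    rw [e1]
    exact h1
  have hu0 : u ∈ cdeg (⟨Y⟩ : CC C) ⟨X⟩ 0 := cograph_mem f
  have hv0 : v ∈ cdeg (⟨X⟩ : CC C) ⟨Y⟩ m := by
    have h1 := graph_mem f (C := C)
    rwa [show ((Y.dim : ℤ) - X.dim) = m by rw [hm]; push_cast; ring] at h1
  have htau : ((tau d L θ' : End (⟨Y⟩ : CC C)) : (⟨Y⟩ : CC C) ⟶ ⟨Y⟩) ∈
      cdeg (⟨Y⟩ : CC C) ⟨Y⟩ (-m) := by
    refine Submodule.sum_mem _ fun i hi => ?_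
    rw [Finset.mem_range] at hi
    exact cdeg_comp' (hLr (d - i)) (hθd i hi) (by omega)
  have htau' : ((tau' d L θ' : End (⟨Y⟩ : CC C)) : (⟨Y⟩ : CC C) ⟶ ⟨Y⟩) ∈
      cdeg (⟨Y⟩ : CC C) ⟨Y⟩ (-m) := by
    refine Submodule.sum_mem _ fun i hi => ?_
    rw [Finset.mem_range] at hi
    exact cdeg_comp' (hθd i hi) (hLr (d - i)) (by omega)
  have hcL : ((c • L ^ m : End (⟨Y⟩ : CC C)) : (⟨Y⟩ : CC C) ⟶ ⟨Y⟩) ∈ cdeg (⟨Y⟩ : CC C) ⟨Y⟩ m :=
    Submodule.smul_mem _ c (hLr m)
  have hlow0 : ((lowP d e : End (⟨Y⟩ : CC C)) : (⟨Y⟩ : CC C) ⟶ ⟨Y⟩) ∈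
      cdeg (⟨Y⟩ : CC C) ⟨Y⟩ 0 := Submodule.sum_mem _ fun i _ => he0 i
  have hhigh0 : ((highP (d + m) d e : End (⟨Y⟩ : CC C)) : (⟨Y⟩ : CC C) ⟶ ⟨Y⟩) ∈
      cdeg (⟨Y⟩ : CC C) ⟨Y⟩ 0 := Submodule.sum_mem _ fun i _ => he0 _
  -- the inverses
  obtain ⟨W, hWS, hW⟩ := exists_W hdec hL hInv hc (end0 (⟨Y⟩ : CC C)) hlow0
    (cdeg_comp' hlow0 (cdeg_comp hcL htau) (by ring))
  obtain ⟨W', hWS', hW', hW''⟩ := exists_W' hdec hL hInv hc (end0 (⟨Y⟩ : CC C)) hhigh0
    (cdeg_comp' htau' (cdeg_comp hcL hhigh0) (by ring))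
  have huv : End.of (u ≫ v) = c • L ^ m := by
    have h1 : u ≫ v = mor (C.comp (C.cograph f) (C.graph f)) := rfl
    rw [h1, cograph_comp_graph, hpush', mulCorr_smul, hLpow]
  have t := trans_of_lef hdec hL huv hW hW' hW''
  set α := alp d L θ' W' u with hαdef
  set β := bet d m e L θ' W W' u v with hβdef
  have hα : α ∈ cdeg (⟨Y⟩ : CC C) ⟨X⟩ (-m) :=
    cdeg_comp' hWS' (cdeg_comp htau' hu0) (by ring)
  have hβ : β ∈ cdeg (⟨X⟩ : CC C) ⟨Y⟩ 0 := by
    refine cdeg_comp' (r := 0) (s := 0) ?_ (cdeg_comp' hv0 (cdeg_comp htau hWS) (by ring)) (by ring)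
    exact Submodule.sub_mem _ (cdeg_id _)
      (cdeg_comp' hv0 (cdeg_comp hhigh0 hα) (by ring))
  let ρ : ℕ → C.A (X.prod X) := fun j => tpi d m e u v α β j
  have hρ : ∀ j, mor (ρ j) = tpi d m e u v α β j := fun _ => rfl
  -- the degrees
  have hdlt : ∀ j < d, tpi d m e u v α β j ∈ cdeg (⟨X⟩ : CC C) ⟨X⟩ 0 := by
    intro j hj
    rw [tpi_lt hj]
    exact cdeg_comp' hβ (cdeg_comp (he0 j) hu0) (by ring)
  have hdgt : ∀ j, d < j → tpi d m e u v α β j ∈ cdeg (⟨X⟩ : CC C) ⟨X⟩ 0 := by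
    intro j hj
    rw [tpi_gt hj]
    exact cdeg_comp' hv0 (cdeg_comp (he0 (j + 2 * m)) hα) (by ring)
  have hdall : ∀ j, tpi d m e u v α β j ∈ cdeg (⟨X⟩ : CC C) ⟨X⟩ 0 := by
    intro j
    rcases lt_trichotomy j d with hj | hj | hj
    · exact hdlt j hj
    · subst hj
      rw [tpi_mid]
      refine Submodule.sub_mem _ (Submodule.sub_mem _ (cdeg_id _) ?_) ?_
      · exact Submodule.sum_mem _ fun i hi => hdlt i (Finset.mem_range.1 hi)
      · exact Submodule.sum_mem _ fun i _ => hdgt _ (by omega)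
    · exact hdgt j hj
  -- the action on the cohomology
  have hacte : ∀ (i : ℕ) (q : ℤ) (b : H.A Y), b ∈ H.gr Y q →
      hact H (mor (π i)) b = if q = i then b else 0 := fun i q b hb => hπ.actH_eq i q hb
  have halt : ∀ j < d, ∀ (q : ℤ) (a : H.A X), a ∈ H.gr X q →
      hact H (tpi d m e u v α β j) a = if q = j then a else 0 := by
    intro j hj q a ha
    split_ifs with hq
    · subst hq
      obtain ⟨b, hb, hba⟩ := hsurj j hj a ha
      have h1 : a = hact H (e j ≫ u) b := by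
        rw [hact_comp]
        have h2 : hact H (e j) b = b := by
          have := hacte j j b hb
          rw [if_pos rfl] at this
          exact this
        rw [h2]
        have h3 := hact_cograph (C := C) H f b
        have h4 : H.pull f b = a := hba
        rw [h4] at h3
        exact h3.symm
      have h2 : hact H (tpi d m e u v α β j) (hact H (e j ≫ u) b) = hact H (e j ≫ u) b := by
        rw [← hact_comp, Category.assoc, t.left hj, if_pos rfl]
      rw [← h1] at h2
      exact h2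
    · rw [tpi_lt hj, hact_comp, hact_comp]
      have h1 := hacte j q (hact H β a) (hact_mem' H hβ ha (by ring))
      rw [if_neg hq] at h1
      have h2 : hact H (e j) (hact H β a) = 0 := h1
      rw [h2, map_zero]
  have hagt : ∀ j, d < j → ∀ (q : ℤ) (a : H.A X), a ∈ H.gr X q →
      hact H (tpi d m e u v α β j) a = if q = j then a else 0 := by
    intro j hj q a ha
    have hva : hact H v a ∈ H.gr Y (q + 2 * m) := hact_mem H hv0 ha
    split_ifs with hq
    · subst hq
      have h0 : a - hact H (tpi d m e u v α β j) a ∈ H.gr X j :=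
        Submodule.sub_mem _ ha (hact_mem' H (hdgt j hj) ha (by ring))
      have h1 : hact H v (a - hact H (tpi d m e u v α β j) a) = 0 := by
        have h2 : hact H v (a - hact H (tpi d m e u v α β j) a) ∈ H.gr Y ((j + 2 * m : ℕ) : ℤ) :=
          hact_mem' H hv0 h0 (by push_cast; ring)
        have h3 := hacte (j + 2 * m) _ _ h2
        rw [if_pos rfl] at h3
        rw [← h3]
        have h4 : hact H (mor (π (j + 2 * m))) (hact H v (a - hact H (tpi d m e u v α β j) a)) =
            hact H (v ≫ e (j + 2 * m)) a -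
              hact H (tpi d m e u v α β j ≫ v ≫ e (j + 2 * m)) a := by
          rw [map_sub, map_sub, ← hact_comp, ← hact_comp, ← hact_comp]
        rw [h4, t.right (by omega), if_pos rfl, sub_self]
      have h2 : H.push f (a - hact H (tpi d m e u v α β j) a) = 0 := by
        rw [← hact_graph]
        exact h1
      exact (sub_eq_zero.1 (push_injective hsurj hj h0 h2)).symm
    · rw [tpi_gt hj, hact_comp, hact_comp]
      have h1 := hacte (j + 2 * m) _ _ hva
      rw [if_neg (by push_cast; omega)] at h1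
      have h2 : hact H (e (j + 2 * m)) (hact H v a) = 0 := h1
      rw [h2, map_zero]
  have haall : ∀ j (q : ℤ) (a : H.A X), a ∈ H.gr X q →
      hact H (tpi d m e u v α β j) a = if q = j then a else 0 := by
    intro j q a ha
    rcases lt_trichotomy j d with hj | hj | hj
    · exact halt j hj q a ha
    · subst hj
      by_cases ha0 : a = 0
      · subst ha0
        rw [map_zero]
        split_ifs <;> rfl
      have hq0 := nonneg_of_mem H ha ha0
      have hq1 : q ≤ 2 * X.dim := by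
        by_contra hcon
        rw [gr_top H (by omega)] at ha
        exact ha0 ((Submodule.mem_bot _).1 ha)
      obtain ⟨q', rfl⟩ := Int.eq_ofNat_of_zero_le hq0
      rw [tpi_mid, hact_sub, hact_sub, hact_id, hact_sum, hact_sum,
        Finset.sum_congr rfl fun i hi => halt i (Finset.mem_range.1 hi) q' a ha,
        Finset.sum_congr rfl fun i _ => hagt (d + 1 + i) (by omega) q' a ha]
      rcases lt_trichotomy q' d with h | h | h
      · rw [Finset.sum_eq_single q', if_pos rfl, Finset.sum_eq_zero, sub_zero, sub_self,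
          if_neg (by omega)]
        · intro i _
          rw [if_neg (by omega)]
        · intro i _ hi
          rw [if_neg (by omega)]
        · intro h1
          exact absurd (Finset.mem_range.2 h) h1
      · rw [Finset.sum_eq_zero, Finset.sum_eq_zero, sub_zero, sub_zero, if_pos (by rw [h])]
        · intro i _
          rw [if_neg (by omega)]
        · intro i hi
          rw [Finset.mem_range] at hi
          rw [if_neg (by omega)]
      · rw [Finset.sum_eq_zero, sub_zero, Finset.sum_eq_single (q' - (d + 1)), if_pos (by omega),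
          sub_self, if_neg (by omega)]
        · intro i _ hi
          rw [if_neg (by omega)]
        · intro h1
          rw [Finset.mem_range] at h1
          omega
        · intro i hi
          rw [Finset.mem_range] at hi
          rw [if_neg (by omega)]
    · exact hagt j hj q a ha
  have hdecX : Dec (A := End (⟨X⟩ : CC C)) ρ (2 * X.dim + 1) := t.dec'
  refine ⟨ρ, isCK_of_dec hdecX hdall haall, ⟨?_, ?_, ?_⟩, β, ?_, fun j hj => ?_⟩
  · exact C.pull_mem f hT.divisor
  · -- triangularity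
    have hu : u ≫ M = L ≫ u := cograph_comp_mul f ℓ
    have hv : M ≫ v = v ≫ L := mul_comp_graph f ℓ
    have hlow : Low e (2 * (m + 1)) (L ≫ u ≫ v : End (⟨Y⟩ : CC C)) := by
      have h1 : (L ≫ u ≫ v : End (⟨Y⟩ : CC C)) = (c • L ^ m) * L := by
        rw [← huv]
        rfl
      rw [h1]
      refine (Low.mul hdec ((hL.pow hdec m).smul c) hL).mono (by omega)
    have h1 := t.low hL hu hv hlow
    intro i j hij
    have h2 := h1 i j (by exact_mod_cast hij)
    rw [comp_assoc]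
    exact h2
  · -- the inverses of the Lefschetz maps
    intro i hi
    have hi' : i < d := hi
    let M' : (⟨X⟩ : CC C) ⟶ ⟨X⟩ := mor (C.mulCorr (C.pull f ℓ ^ (X.dim - i)))
    let Λ : (⟨Y⟩ : CC C) ⟶ ⟨Y⟩ := L ^ (d + m - i)
    have hM : u ≫ M' ≫ v = c • Λ := by
      have h1 : u ≫ M' = mor (C.mulCorr (ℓ ^ (d - i))) ≫ u := by
        have h2 := cograph_comp_mul (C := C) f (ℓ ^ (d - i))
        rw [map_pow] at h2
        exact h2
      rw [← Category.assoc, h1, Category.assoc]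
      have h3 : u ≫ v = (c • L ^ m : End (⟨Y⟩ : CC C)) := huv
      rw [h3]
      have h4 : mor (C.mulCorr (ℓ ^ (d - i))) ≫ (c • L ^ m : End (⟨Y⟩ : CC C)) =
          (c • L ^ m) * End.of (mor (C.mulCorr (ℓ ^ (d - i)))) := rfl
      rw [h4, ← hLpow, smul_mul_assoc, ← pow_add, show m + (d - i) = d + m - i by omega]
    have hone := hInv.one i hi'
    have htwo := hInv.two i hi'
    have hleft := hInv.left i hi'
    have hright := hInv.right i hi'
    have k3 : θ' i ≫ e i = θ' i := hleft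
    have k4 : e (2 * (d + m) - i) ≫ θ' i = θ' i := hright
    have k1 : e i ≫ Λ ≫ e (2 * (d + m) - i) ≫ θ' i = e i := by
      rw [k4]
      rw [End.mul_def, End.mul_def] at hone
      exact hone
    have k2 : θ' i ≫ e i ≫ Λ ≫ e (2 * (d + m) - i) = e (2 * (d + m) - i) := by
      rw [← Category.assoc, k3]
      rw [End.mul_def, End.mul_def] at htwo
      exact htwo
    obtain ⟨r1, r2, r3, r4⟩ := t.inverse hi' hc hM k1 k2 k3 k4
    refine ⟨c⁻¹ • (v ≫ θ' i ≫ u), ?_, r3, r4, ?_, ?_⟩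
    · have h1 : (c⁻¹ • (v ≫ θ' i ≫ u)) ∈ cdeg (⟨X⟩ : CC C) ⟨X⟩ ((i : ℤ) - d) :=
        Submodule.smul_mem _ _ (cdeg_comp' hv0 (cdeg_comp (hθd i hi') hu0) (by ring))
      rw [mem_cdeg] at h1
      have e1 : ((⟨X⟩ : CC C).obj.dim : ℤ) + ((i : ℤ) - d) = i := by
        change (X.dim : ℤ) + ((i : ℤ) - X.dim) = i
        ring
      rw [e1] at h1
      exact h1
    · have h1 := r1
      rw [← Category.assoc] at h1
      exact h1
    · have h1 := r2
      rw [← Category.assoc] at h1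
      exact h1
  · rw [mem_cdeg, add_zero] at hβ
    exact hβ
  · have h1 : ρ j = tpi d m e u v α β j := rfl
    rw [h1, tpi_lt hj]
    rfl

/-- A Lefschetz map transports triangular Lefschetz decompositions. -/
theorem exists_of_map {f : X ⟶ Y} {ℓ : C.A Y} (hf : IsLefschetzMap H f ℓ)
    {π : ℕ → C.A (Y.prod Y)} (hπ : IsCK H Y π) (hT : TriangularLefschetz C ℓ π) :
    ∃ ρ : ℕ → C.A (X.prod X), IsCK H X ρ ∧ TriangularLefschetz C (C.pull f ℓ) ρ := by
  obtain ⟨ρ, h1, h2, -⟩ := exists_of_map_fac hf hπ hT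
  exact ⟨ρ, h1, h2⟩

end Pool.Agent.V7H2.LT
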