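import Mathlib

/-!
# Orthogonal idempotents, weights and triangular elements
-/

set_option autoImplicit false

open Finset

namespace Pool.Agent.V7H2.LT

variable {A : Type*} [Ring A]

/-- `e 0, …, e (N-1)` are mutually orthogonal idempotents with sum `1`, and `e i = 0` for `i ≥ N`. -/
structure Dec (e : ℕ → A) (N : ℕ) : Prop where
  mul : ∀ i j, e i * e j = if i = j then e i else 0
  out : ∀ i, N ≤ i → e i = 0
  sum : ∑ i ∈ range N, e i = 1

/-- `a` raises the weights by at most `s`. -/
def Low (e : ℕ → A) (s : ℤ) (a : A) : Prop :=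
  ∀ i j : ℕ, (i : ℤ) + s < j → e j * a * e i = 0

section

variable {e : ℕ → A} {N : ℕ}

lemma Dec.idem (h : Dec e N) (i : ℕ) : e i * e i = e i := by rw [h.mul, if_pos rfl]

lemma Dec.orth (h : Dec e N) {i j : ℕ} (hij : i ≠ j) : e i * e j = 0 := by
  rw [h.mul, if_neg hij]

lemma Dec.expand_left (h : Dec e N) (a : A) : a = ∑ i ∈ range N, e i * a := by
  rw [← sum_mul, h.sum, one_mul]

lemma Dec.expand_right (h : Dec e N) (a : A) : a = ∑ i ∈ range N, a * e i := by
  rw [← mul_sum, h.sum, mul_one]

/-- An element all of whose components vanish is zero. -/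
lemma Dec.eq_zero (h : Dec e N) {a : A} (ha : ∀ i j, e j * a * e i = 0) : a = 0 := by
  rw [h.expand_left a]
  refine sum_eq_zero fun j _ => ?_
  rw [h.expand_right (e j * a)]
  exact sum_eq_zero fun i _ => ha i j

lemma Dec.ext (h : Dec e N) {a b : A} (hab : ∀ i j, e j * a * e i = e j * b * e i) : a = b := by
  rw [← sub_eq_zero]
  refine h.eq_zero fun i j => ?_
  rw [mul_sub, sub_mul, hab, sub_self]

lemma Low.mono {s t : ℤ} {a : A} (ha : Low e s a) (hst : s ≤ t) : Low e t a :=
  fun i j hij => ha i j (by omega)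

lemma Low.add {s : ℤ} {a b : A} (ha : Low e s a) (hb : Low e s b) : Low e s (a + b) :=
  fun i j hij => by rw [mul_add, add_mul, ha i j hij, hb i j hij, add_zero]

lemma Low.neg {s : ℤ} {a : A} (ha : Low e s a) : Low e s (-a) :=
  fun i j hij => by rw [mul_neg, neg_mul, ha i j hij, neg_zero]

lemma Low.sub {s : ℤ} {a b : A} (ha : Low e s a) (hb : Low e s b) : Low e s (a - b) :=
  fun i j hij => by rw [mul_sub, sub_mul, ha i j hij, hb i j hij, sub_zero]

lemma Low.zero (s : ℤ) : Low e s (0 : A) := fun i j _ => by rw [mul_zero, zero_mul]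

lemma Low.sum {ι : Type*} {s : ℤ} {S : Finset ι} {a : ι → A} (ha : ∀ i ∈ S, Low e s (a i)) :
    Low e s (∑ i ∈ S, a i) := by
  classical
  induction S using Finset.induction_on with
  | empty => rw [sum_empty]; exact Low.zero s
  | insert i S hi ih =>
    rw [sum_insert hi]
    exact (ha i (mem_insert_self i S)).add (ih fun j hj => ha j (mem_insert_of_mem hj))

lemma Low.smul {R : Type*} [CommSemiring R] [Algebra R A] {s : ℤ} {a : A} (c : R)
    (ha : Low e s a) : Low e s (c • a) :=
  fun i j hij => by rw [mul_smul_comm, smul_mul_assoc, ha i j hij, smul_zero]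

lemma Low.mul (h : Dec e N) {s t : ℤ} {a b : A} (ha : Low e s a) (hb : Low e t b) :
    Low e (s + t) (a * b) := by
  intro i j hij
  have h1 : e j * (a * b) * e i = ∑ k ∈ range N, (e j * a * e k) * (e k * b * e i) := by
    have h2 : e j * (a * b) * e i = (e j * a) * ((∑ k ∈ range N, e k) * (b * e i)) := by
      rw [h.sum]; noncomm_ring
    rw [h2, sum_mul, mul_sum]
    refine sum_congr rfl fun k _ => ?_
    have h3 : e k * (b * e i) = e k * e k * b * e i := by rw [h.idem]; noncomm_ring
    rw [h3]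
    noncomm_ring
  rw [h1]
  refine sum_eq_zero fun k _ => ?_
  by_cases hk : (k : ℤ) + s < j
  · rw [ha k j hk, zero_mul]
  · rw [hb i k (by omega), mul_zero]

lemma Low.one (h : Dec e N) : Low e 0 (1 : A) := by
  intro i j hij
  rw [mul_one, h.orth (by omega)]

lemma Low.idem (h : Dec e N) (k : ℕ) : Low e 0 (e k) := by
  intro i j hij
  by_cases hk : j = k
  · subst hk
    rw [h.idem, h.orth (by omega)]
  · rw [h.orth hk, zero_mul]

lemma Low.pow (h : Dec e N) {s : ℤ} {a : A} (ha : Low e s a) (m : ℕ) :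
    Low e (m * s) (a ^ m) := by
  induction m with
  | zero => simpa using Low.one h
  | succ m ih =>
    rw [pow_succ]
    have := Low.mul h ih ha
    rwa [show (m : ℤ) * s + s = ((m + 1 : ℕ) : ℤ) * s by push_cast; ring] at this

/-- An element `e k * a * e l` is of weight `k - l`. -/
lemma Low.of_comp (h : Dec e N) {k l : ℕ} {a : A} (ha : e k * a * e l = a) {s : ℤ}
    (hs : (k : ℤ) - l ≤ s) : Low e s a := by
  intro i j hij
  rw [← ha]
  by_cases h1 : j = k
  · have h2 : l ≠ i := by omega
    calc e j * (e k * a * e l) * e i = e j * (e k * a) * (e l * e i) := by noncomm_ring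
      _ = 0 := by rw [h.orth h2, mul_zero]
  · calc e j * (e k * a * e l) * e i = (e j * e k) * a * e l * e i := by noncomm_ring
      _ = 0 := by rw [h.orth h1, zero_mul, zero_mul, zero_mul]

/-- A triangular element with vanishing diagonal is strictly triangular. -/
lemma Low.strict {a : A} (ha : Low e 0 a) (hd : ∀ i, e i * a * e i = 0) : Low e (-1) a := by
  intro i j hij
  by_cases h1 : i = j
  · subst h1
    exact hd i
  · exact ha i j (by omega)

lemma Low.nilpotent (h : Dec e N) {a : A} (ha : Low e (-1) a) : a ^ N = 0 := by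
  have h1 := ha.pow h N
  refine h.eq_zero fun i j => ?_
  by_cases hi : N ≤ i
  · rw [h.out i hi, mul_zero]
  · exact h1 i j (by omega)

/-- **Inversion of triangular elements.** Let `p` be an idempotent and `x` an element with
`p x = x = x p` such that `x - c p` is strictly triangular, `c ≠ 0`. Then `x` has an inverse in
`p A p`, which is again triangular. -/
theorem exists_inverse [Algebra ℚ A] (h : Dec e N) {p x : A} {c : ℚ} (hc : c ≠ 0)
    (hp : p * p = p) (hpl : Low e 0 p) (hpx : p * x = x) (hxp : x * p = x)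
    (hx : Low e (-1) (x - c • p))
    (S : Subalgebra ℚ A) (hpS : p ∈ S) (hxS : x ∈ S) :
    ∃ w ∈ S, p * w = w ∧ w * p = w ∧ w * x = p ∧ x * w = p ∧ Low e 0 w := by
  set U : A := -(c⁻¹ • x - p) with hU
  have hU1 : Low e (-1) U := by
    have h1 : U = (-c⁻¹) • (x - c • p) := by
      rw [hU, smul_sub, smul_smul, neg_smul, neg_mul, inv_mul_cancel₀ hc, neg_smul, one_smul]
      abel
    rw [h1]
    exact hx.smul _
  have hUN : U ^ N = 0 := Low.nilpotent h hU1
  have hpU : p * U = U := by rw [hU, mul_neg, mul_sub, mul_smul_comm, hpx, hp]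
  have hUp : U * p = U := by rw [hU, neg_mul, sub_mul, smul_mul_assoc, hxp, hp]
  have hxU : x = c • (p - U) := by
    rw [hU, sub_neg_eq_add, add_sub_cancel, smul_smul, mul_inv_cancel₀ hc, one_smul]
  have hUS : U ∈ S := S.neg_mem (S.sub_mem (S.smul_mem hxS _) hpS)
  have hG : (∑ i ∈ range N, U ^ i) * (1 - U) = 1 := by
    rw [geom_sum_mul_neg, hUN, sub_zero]
  have hG' : (1 - U) * (∑ i ∈ range N, U ^ i) = 1 := by
    rw [mul_neg_geom_sum, hUN, sub_zero]
  set G := ∑ i ∈ range N, U ^ i with hGdef
  have hpUi : ∀ i : ℕ, p * U ^ i = U ^ i * p := by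
    intro i
    induction i with
    | zero => rw [pow_zero, mul_one, one_mul]
    | succ i ih => rw [pow_succ, ← mul_assoc, ih, mul_assoc, mul_assoc, hpU, hUp]
  have hpG : p * G = G * p := by
    rw [hGdef, mul_sum, sum_mul]
    exact sum_congr rfl fun i _ => hpUi i
  have hGS : G ∈ S := S.sum_mem fun i _ => S.pow_mem hUS i
  have hGl : Low e 0 G := by
    refine Low.sum fun i _ => (hU1.pow h i).mono (by omega)
  have h1 : p - U = (1 - U) * p := by rw [sub_mul, one_mul, hUp]
  have h2 : p - U = p * (1 - U) := by rw [mul_sub, mul_one, hpU]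
  refine ⟨c⁻¹ • (p * G), S.smul_mem (S.mul_mem hpS hGS) _, ?_, ?_, ?_, ?_, ?_⟩
  · rw [mul_smul_comm, ← mul_assoc, hp]
  · rw [smul_mul_assoc, hpG, mul_assoc, hp]
  · rw [hxU, smul_mul_smul_comm, inv_mul_cancel₀ hc, one_smul, h1, mul_assoc, ← mul_assoc G, hG,
      one_mul, hp]
  · rw [hxU, smul_mul_smul_comm, mul_inv_cancel₀ hc, one_smul, h2, hpG, mul_assoc, ← mul_assoc _ G,
      hG', one_mul, hp]
  · have h3 := Low.mul h hpl hGl
    rw [add_zero] at h3
    exact h3.smul _

end

end Pool.Agent.V7H2.LT
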