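import Pool.Agent.V7H2.LT.Alg

/-!
# Transport of decompositions along a pair of morphisms
-/

set_option autoImplicit false

open Finset CategoryTheory

namespace Pool.Agent.V7H2.LT

universe v' u'

variable {𝒞 : Type u'} [Category.{v'} 𝒞] [Preadditive 𝒞] {X Y : 𝒞}

/-- The relations needed for the transport of the decomposition `e` of `Y` to `X`. -/
structure Trans (d m : ℕ) (e : ℕ → End Y) (u : Y ⟶ X) (v : X ⟶ Y) (α : Y ⟶ X) (β : X ⟶ Y) :
    Prop where
  dec : Dec e (2 * (d + m) + 1)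
  ub : ∀ i < d, e i ≫ u ≫ β = e i
  av : ∀ k, d + 2 * m < k → α ≫ v ≫ e k = e k
  uv : ∀ i < d, ∀ k, d + 2 * m < k → e i ≫ u ≫ v ≫ e k = 0
  ab : α ≫ β = 0

/-- The transported decomposition. -/
noncomputable def tpi (d m : ℕ) (e : ℕ → End Y) (u : Y ⟶ X) (v : X ⟶ Y) (α : Y ⟶ X) (β : X ⟶ Y)
    (j : ℕ) : X ⟶ X :=
  if j < d then β ≫ e j ≫ u else
    if j = d then (𝟙 X - ∑ i ∈ range d, β ≫ e i ≫ u -
      ∑ i ∈ range d, v ≫ e (d + 1 + i + 2 * m) ≫ α : X ⟶ X)
    else v ≫ e (j + 2 * m) ≫ α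

section

variable {d m : ℕ} {e : ℕ → End Y} {u : Y ⟶ X} {v : X ⟶ Y} {α : Y ⟶ X} {β : X ⟶ Y}


lemma tpi_lt {j : ℕ} (hj : j < d) : tpi d m e u v α β j = β ≫ e j ≫ u := by
  rw [tpi, if_pos hj]

lemma tpi_gt {j : ℕ} (hj : d < j) : tpi d m e u v α β j = v ≫ e (j + 2 * m) ≫ α := by
  rw [tpi, if_neg (by omega), if_neg (by omega)]

lemma tpi_mid : tpi d m e u v α β d =
    𝟙 X - ∑ i ∈ range d, tpi d m e u v α β i - ∑ i ∈ range d, tpi d m e u v α β (d + 1 + i) := by
  rw [tpi, if_neg (by omega), if_pos rfl]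
  congr 1
  · congr 1
    exact sum_congr rfl fun i hi => (tpi_lt (mem_range.1 hi)).symm
  · exact sum_congr rfl fun i _ => (tpi_gt (by omega)).symm

lemma dec_comp {N : ℕ} (h : Dec e N) (i j : ℕ) : e i ≫ e j = if i = j then e i else 0 := by
  have h1 := h.mul j i
  rw [End.mul_def] at h1
  rw [h1]
  by_cases hij : i = j
  · subst hij; rfl
  · rw [if_neg hij, if_neg (Ne.symm hij)]

variable (t : Trans d m e u v α β)

include t

/-- (S1) -/
lemma Trans.left {k : ℕ} (hk : k < d) (j : ℕ) :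
    e k ≫ u ≫ tpi d m e u v α β j = if j = k then e k ≫ u else 0 := by
  have h1 : ∀ j < d, e k ≫ u ≫ tpi d m e u v α β j = if j = k then e k ≫ u else 0 := by
    intro j hj
    rw [tpi_lt hj]
    have h2 : e k ≫ u ≫ β ≫ e j ≫ u = (e k ≫ u ≫ β) ≫ e j ≫ u := by simp only [Category.assoc]
    rw [h2, t.ub k hk, ← Category.assoc, dec_comp t.dec]
    by_cases hjk : k = j
    · subst hjk; simp
    · rw [if_neg hjk, if_neg (Ne.symm hjk), Limits.zero_comp]
  have h2 : ∀ j, d < j → e k ≫ u ≫ tpi d m e u v α β j = 0 := by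
    intro j hj
    rw [tpi_gt hj]
    have h2 : e k ≫ u ≫ v ≫ e (j + 2 * m) ≫ α = (e k ≫ u ≫ v ≫ e (j + 2 * m)) ≫ α := by
      simp only [Category.assoc]
    rw [h2, t.uv k hk _ (by omega), Limits.zero_comp]
  rcases lt_trichotomy j d with hj | hj | hj
  · exact h1 j hj
  · subst hj
    rw [if_neg (by omega), tpi_mid]
    simp only [Preadditive.comp_sub, Preadditive.comp_sum, Category.comp_id]
    rw [sum_congr rfl fun i hi => h1 i (mem_range.1 hi),
      sum_congr rfl fun i _ => h2 (j + 1 + i) (by omega), sum_const_zero, sum_ite_eq',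
      if_pos (mem_range.2 hk), sub_self, sub_zero]
  · rw [h2 j hj, if_neg (by omega)]

/-- (S2) -/
lemma Trans.right {k : ℕ} (hk : d + 2 * m < k) (j : ℕ) :
    tpi d m e u v α β j ≫ v ≫ e k = if j + 2 * m = k then v ≫ e k else 0 := by
  by_cases hk2 : 2 * (d + m) < k
  · rw [t.dec.out k (by omega)]
    simp
  have h1 : ∀ j < d, tpi d m e u v α β j ≫ v ≫ e k = 0 := by
    intro j hj
    rw [tpi_lt hj]
    have h2 : (β ≫ e j ≫ u) ≫ v ≫ e k = β ≫ (e j ≫ u ≫ v ≫ e k) := by
      simp only [Category.assoc]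
    rw [h2, t.uv j hj k hk, Limits.comp_zero]
  have h2 : ∀ j, d < j → tpi d m e u v α β j ≫ v ≫ e k = if j + 2 * m = k then v ≫ e k else 0 := by
    intro j hj
    rw [tpi_gt hj]
    have h2 : (v ≫ e (j + 2 * m) ≫ α) ≫ v ≫ e k = v ≫ e (j + 2 * m) ≫ (α ≫ v ≫ e k) := by
      simp only [Category.assoc]
    rw [h2, t.av k hk, dec_comp t.dec]
    split_ifs with h3
    · rw [h3]
    · rw [Limits.comp_zero]
  rcases lt_trichotomy j d with hj | hj | hj
  · rw [h1 j hj, if_neg (by omega)]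
  · subst hj
    rw [if_neg (by omega), tpi_mid]
    simp only [Preadditive.sub_comp, Preadditive.sum_comp, Category.id_comp]
    rw [sum_congr rfl fun i hi => h1 i (mem_range.1 hi),
      sum_congr rfl fun i _ => h2 (j + 1 + i) (by omega), sum_const_zero, sub_zero,
      sum_eq_single (k - (j + 1 + 2 * m))]
    · rw [if_pos (by omega), sub_self]
    · intro b _ hb
      rw [if_neg (by omega)]
    · intro hb
      rw [mem_range] at hb
      omega
  · exact h2 j hj

lemma Trans.comp (i j : ℕ) : tpi d m e u v α β j ≫ tpi d m e u v α β i =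
    if i = j then tpi d m e u v α β i else 0 := by
  have hA : ∀ i j, j < d → tpi d m e u v α β j ≫ tpi d m e u v α β i =
      if i = j then tpi d m e u v α β i else 0 := by
    intro i j hj
    have h1 : tpi d m e u v α β j ≫ tpi d m e u v α β i = β ≫ (e j ≫ u ≫ tpi d m e u v α β i) := by
      rw [tpi_lt hj]
      simp only [Category.assoc]
    rw [h1, t.left hj]
    split_ifs with h2
    · rw [h2, tpi_lt hj]
    · rw [Limits.comp_zero]
  have hB : ∀ i j, d < i → tpi d m e u v α β j ≫ tpi d m e u v α β i =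
      if i = j then tpi d m e u v α β i else 0 := by
    intro i j hi
    have h1 : tpi d m e u v α β j ≫ tpi d m e u v α β i =
        (tpi d m e u v α β j ≫ v ≫ e (i + 2 * m)) ≫ α := by
      rw [tpi_gt hi]
      simp only [Category.assoc]
    rw [h1, t.right (by omega)]
    by_cases h2 : i = j
    · rw [if_pos (by omega), if_pos h2, tpi_gt hi, Category.assoc]
    · rw [if_neg (by omega), if_neg h2, Limits.zero_comp]
  have hC : ∀ i j, i < d → d < j → tpi d m e u v α β j ≫ tpi d m e u v α β i = 0 := by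
    intro i j hi hj
    rw [tpi_lt hi, tpi_gt hj]
    have h1 : (v ≫ e (j + 2 * m) ≫ α) ≫ β ≫ e i ≫ u = v ≫ e (j + 2 * m) ≫ (α ≫ β) ≫ e i ≫ u := by
      simp only [Category.assoc]
    rw [h1, t.ab]
    simp
  have hD : ∀ j, d < j → tpi d m e u v α β j ≫ tpi d m e u v α β d = 0 := by
    intro j hj
    rw [tpi_mid]
    simp only [Preadditive.comp_sub, Preadditive.comp_sum, Category.comp_id]
    rw [sum_congr rfl fun i hi => hC i j (mem_range.1 hi) hj,
      sum_congr rfl fun i _ => hB (d + 1 + i) j (by omega), sum_const_zero, sub_zero]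
    by_cases h1 : 2 * d < j
    · rw [tpi_gt hj, t.dec.out (j + 2 * m) (by omega)]
      rw [sum_eq_zero]
      · simp
      · intro i hi
        rw [mem_range] at hi
        rw [if_neg (by omega)]
    · rw [sum_eq_single (j - (d + 1))]
      · rw [if_pos (by omega), show d + 1 + (j - (d + 1)) = j by omega, sub_self]
      · intro b _ hb
        rw [if_neg (by omega)]
      · intro hb
        rw [mem_range] at hb
        omega
  have hE : ∀ i, i < d → tpi d m e u v α β d ≫ tpi d m e u v α β i = 0 := by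
    intro i hi
    rw [tpi_mid]
    simp only [Preadditive.sub_comp, Preadditive.sum_comp, Category.id_comp]
    rw [sum_congr rfl fun k hk => hA i k (mem_range.1 hk),
      sum_congr rfl fun k _ => hC i (d + 1 + k) hi (by omega), sum_const_zero, sub_zero,
      sum_ite_eq, if_pos (mem_range.2 hi), sub_self]
  rcases lt_trichotomy j d with hj | hj | hj
  · exact hA i j hj
  · subst hj
    rcases lt_trichotomy i j with hi | hi | hi
    · rw [hE i hi, if_neg (by omega)]
    · subst hi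
      rw [if_pos rfl]
      nth_rewrite 2 [tpi_mid]
      simp only [Preadditive.comp_sub, Preadditive.comp_sum, Category.comp_id]
      rw [sum_congr rfl fun k hk => hE k (mem_range.1 hk),
        sum_congr rfl fun k _ => hB (i + 1 + k) i (by omega), sum_const_zero, sub_zero,
        sum_eq_zero, sub_zero]
      intro k _
      rw [if_neg (by omega)]
    · exact hB i j hi
  · rcases lt_trichotomy i d with hi | hi | hi
    · rw [hC i j hi hj, if_neg (by omega)]
    · subst hi
      rw [hD j hj, if_neg (by omega)]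
    · exact hB i j hi

/-- The transported decomposition is a decomposition. -/
theorem Trans.dec' : Dec (A := End X) (tpi d m e u v α β) (2 * d + 1) where
  mul i j := t.comp i j
  out i hi := by
    rw [tpi_gt (by omega), t.dec.out (i + 2 * m) (by omega)]
    simp
  sum := by
    change ∑ i ∈ range (2 * d + 1), tpi d m e u v α β i = 𝟙 X
    rw [show 2 * d + 1 = d + (d + 1) by ring, sum_range_add, sum_range_succ', add_zero, tpi_mid]
    have h1 : ∀ i ∈ range d, tpi d m e u v α β (d + (i + 1)) =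
        tpi d m e u v α β (d + 1 + i) := fun i _ => by
      congr 1
      ring
    rw [sum_congr rfl h1]
    abel

/-- **Transport of triangular operators.** -/
theorem Trans.low {L : End Y} {M : End X} (hL : Low e 2 L) (hu : u ≫ M = L ≫ u)
    (hv : M ≫ v = v ≫ L) (huv : Low e (2 * (m + 1)) (L ≫ u ≫ v : End Y)) :
    Low (A := End X) (tpi d m e u v α β) 2 M := by
  have hL' : ∀ i k : ℕ, i + 2 < k → e i ≫ L ≫ e k = 0 := by
    intro i k hik
    have h1 := hL i k (by exact_mod_cast hik)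
    rw [End.mul_def, End.mul_def] at h1
    exact h1
  have hone : ∀ (Z : 𝒞) (f : Y ⟶ Z), f = ∑ k ∈ range (2 * (d + m) + 1), e k ≫ f := by
    intro Z f
    rw [← Preadditive.sum_comp, t.dec.sum]
    exact (Category.id_comp f).symm
  have hone' : ∀ (Z : 𝒞) (f : Z ⟶ Y), f = ∑ k ∈ range (2 * (d + m) + 1), f ≫ e k := by
    intro Z f
    rw [← Preadditive.comp_sum, t.dec.sum]
    exact (Category.comp_id f).symm
  intro i j hij
  change tpi d m e u v α β i ≫ M ≫ tpi d m e u v α β j = 0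
  by_cases hi : i < d
  · rcases le_or_gt j d with hj | hj
    · -- case (α)
      have h1 : tpi d m e u v α β i ≫ M ≫ tpi d m e u v α β j =
          β ≫ (e i ≫ L) ≫ (u ≫ tpi d m e u v α β j) := by
        rw [tpi_lt hi]
        calc (β ≫ e i ≫ u) ≫ M ≫ tpi d m e u v α β j = β ≫ e i ≫ (u ≫ M) ≫ tpi d m e u v α β j := by
              simp only [Category.assoc]
          _ = _ := by rw [hu]; simp only [Category.assoc]
      rw [h1, hone' _ (e i ≫ L), Preadditive.sum_comp, Preadditive.comp_sum]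
      refine sum_eq_zero fun k _ => ?_
      by_cases hk : i + 2 < k
      · have h2 : ((e i ≫ L) ≫ e k) ≫ u ≫ tpi d m e u v α β j =
            (e i ≫ L ≫ e k) ≫ u ≫ tpi d m e u v α β j := by simp only [Category.assoc]
        rw [h2, hL' i k hk, Limits.zero_comp, Limits.comp_zero]
      · have h2 : ((e i ≫ L) ≫ e k) ≫ u ≫ tpi d m e u v α β j =
            e i ≫ L ≫ (e k ≫ u ≫ tpi d m e u v α β j) := by simp only [Category.assoc]
        rw [h2, t.left (by omega), if_neg (by omega)]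
        simp
    · -- case (γ)
      have h1 : tpi d m e u v α β i ≫ M ≫ tpi d m e u v α β j =
          β ≫ (e i ≫ (L ≫ u ≫ v) ≫ e (j + 2 * m)) ≫ α := by
        rw [tpi_lt hi, tpi_gt hj]
        calc (β ≫ e i ≫ u) ≫ M ≫ v ≫ e (j + 2 * m) ≫ α =
              β ≫ e i ≫ (u ≫ M) ≫ v ≫ e (j + 2 * m) ≫ α := by simp only [Category.assoc]
          _ = _ := by rw [hu]; simp only [Category.assoc]
      have h2 := huv i (j + 2 * m) (by push_cast; omega)
      rw [End.mul_def, End.mul_def] at h2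
      rw [h1, h2, Limits.zero_comp, Limits.comp_zero]
  · -- case (β)
    have hj : d < j := by omega
    have h1 : tpi d m e u v α β i ≫ M ≫ tpi d m e u v α β j =
        (tpi d m e u v α β i ≫ v) ≫ (L ≫ e (j + 2 * m)) ≫ α := by
      rw [tpi_gt hj]
      calc tpi d m e u v α β i ≫ M ≫ v ≫ e (j + 2 * m) ≫ α =
            tpi d m e u v α β i ≫ (M ≫ v) ≫ e (j + 2 * m) ≫ α := by simp only [Category.assoc]
        _ = _ := by rw [hv]; simp only [Category.assoc]
    rw [h1, hone _ (L ≫ e (j + 2 * m)), Preadditive.sum_comp, Preadditive.comp_sum]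
    refine sum_eq_zero fun k _ => ?_
    by_cases hk : k + 2 < j + 2 * m
    · rw [hL' k _ hk, Limits.zero_comp, Limits.comp_zero]
    · have h2 : (tpi d m e u v α β i ≫ v) ≫ (e k ≫ L ≫ e (j + 2 * m)) ≫ α =
          (tpi d m e u v α β i ≫ v ≫ e k) ≫ L ≫ e (j + 2 * m) ≫ α := by
        simp only [Category.assoc]
      rw [h2, t.right (by omega), if_neg (by omega), Limits.zero_comp]

/-- **Transport of the inverses of the Lefschetz maps.** -/
theorem Trans.inverse [Linear ℚ 𝒞] {i : ℕ} (hi : i < d) {c : ℚ} (hc : c ≠ 0) {Λ θ : Y ⟶ Y}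
    {M' : X ⟶ X} (hM : u ≫ M' ≫ v = c • Λ)
    (h1 : e i ≫ Λ ≫ e (2 * (d + m) - i) ≫ θ = e i)
    (h2 : θ ≫ e i ≫ Λ ≫ e (2 * (d + m) - i) = e (2 * (d + m) - i))
    (h3 : θ ≫ e i = θ) (h4 : e (2 * (d + m) - i) ≫ θ = θ) :
    tpi d m e u v α β i ≫ M' ≫ (c⁻¹ • (v ≫ θ ≫ u)) = tpi d m e u v α β i ∧
    (c⁻¹ • (v ≫ θ ≫ u)) ≫ M' ≫ tpi d m e u v α β (2 * d - i) = tpi d m e u v α β (2 * d - i) ∧
    (c⁻¹ • (v ≫ θ ≫ u)) ≫ tpi d m e u v α β i = c⁻¹ • (v ≫ θ ≫ u) ∧
    tpi d m e u v α β (2 * d - i) ≫ (c⁻¹ • (v ≫ θ ≫ u)) = c⁻¹ • (v ≫ θ ≫ u) := by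
  have hk : 2 * d - i + 2 * m = 2 * (d + m) - i := by omega
  have hM' : ∀ {Z W : 𝒞} (f : Z ⟶ Y) (g : Y ⟶ W), f ≫ u ≫ M' ≫ v ≫ g = c • (f ≫ Λ ≫ g) := by
    intro Z W f g
    calc f ≫ u ≫ M' ≫ v ≫ g = f ≫ (u ≫ M' ≫ v) ≫ g := by simp only [Category.assoc]
      _ = _ := by rw [hM]; simp only [Linear.smul_comp, Linear.comp_smul]
  refine ⟨?_, ?_, ?_, ?_⟩
  · rw [tpi_lt hi]
    simp only [Linear.comp_smul, Category.assoc]
    rw [hM' (e i) (θ ≫ u), Linear.comp_smul, smul_smul, inv_mul_cancel₀ hc, one_smul]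
    have h5 : e i ≫ Λ ≫ θ ≫ u = (e i ≫ Λ ≫ e (2 * (d + m) - i) ≫ θ) ≫ u := by
      rw [h4]; simp only [Category.assoc]
    rw [h5, h1]
  · rw [tpi_gt (by omega), hk]
    simp only [Linear.smul_comp, Category.assoc]
    rw [hM' θ (e (2 * (d + m) - i) ≫ α), Linear.comp_smul, smul_smul, inv_mul_cancel₀ hc, one_smul]
    have h5 : θ ≫ Λ ≫ e (2 * (d + m) - i) ≫ α = (θ ≫ e i ≫ Λ ≫ e (2 * (d + m) - i)) ≫ α := by
      have h6 : θ ≫ e i ≫ Λ ≫ e (2 * (d + m) - i) = (θ ≫ e i) ≫ Λ ≫ e (2 * (d + m) - i) := by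
        simp only [Category.assoc]
      rw [h6, h3]
      simp only [Category.assoc]
    rw [h5, h2]
  · simp only [Linear.smul_comp, Category.assoc]
    have h5 : θ ≫ u ≫ tpi d m e u v α β i = θ ≫ (e i ≫ u ≫ tpi d m e u v α β i) := by
      rw [← Category.assoc θ (e i), h3]
    rw [h5, t.left hi, if_pos rfl, ← Category.assoc θ, h3]
  · simp only [Linear.comp_smul]
    have h5 : tpi d m e u v α β (2 * d - i) ≫ v ≫ θ ≫ u =
        (tpi d m e u v α β (2 * d - i) ≫ v ≫ e (2 * (d + m) - i)) ≫ θ ≫ u := by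
      simp only [Category.assoc]
      rw [← Category.assoc (e (2 * (d + m) - i)), h4]
    rw [h5, t.right (by omega), if_pos hk, Category.assoc, ← Category.assoc (e _), h4]

end

end Pool.Agent.V7H2.LT
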