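import Pool.Agent.TH133.Defs

/-!
# Lefschetz towers: definitions
-/

set_option autoImplicit false

open CategoryTheory AlgebraicGeometry

universe u v w

namespace Pool.Agent.V7H2.LT

open Pool.Agent.H914 Pool.Agent.H914.VarClass Pool.Agent.H914.VarClass.Obj Pool.Agent.W492.BB
  Pool.Agent.W550.Corr Pool.Agent.TH133

variable {k : Type u} [Field k] {𝒱 : VarClass k}

/-- Hard Lefschetz for the divisor class `ℓ` and the decomposition `π` of the diagonal of `X` up to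
terms of lower weight. Let `n = dim X`, write `Γ ; Γ'` for the composition `Γ' ∘ Γ` and let `L^r` be
the correspondence `Δ_* (ℓ^r)` (the intersection with `ℓ^r`). Then

* `π j ∘ L ∘ π i = 0` for `j > i + 2`: the intersection with `ℓ` raises weights at most by two
  (it may have components which raise the weight by one, or lower it);
* for `i < n` the morphism of Chow motives `π_{2n-i} ∘ L^(n-i) ∘ π_i : h^i(X) → h^(2n-i)(X)(n-i)` is
  an isomorphism, with inverse `θ ∈ CH^i(X × X)`. -/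
structure TriangularLefschetz (C : TheoryData.{u, v, 0} 𝒱 ℚ) {X : 𝒱.Obj} (ℓ : C.A X)
    (π : ℕ → C.A (X.prod X)) : Prop where
  divisor : C.Deg 1 ℓ
  triangular : ∀ i j : ℕ, i + 2 < j → C.comp (C.comp (π i) (C.mulCorr ℓ)) (π j) = 0
  iso : ∀ i < X.dim, ∃ θ : C.A (X.prod X), C.Deg i θ ∧
    C.comp θ (π i) = θ ∧ C.comp (π (2 * X.dim - i)) θ = θ ∧
    C.comp (C.comp (π i) (C.mulCorr (ℓ ^ (X.dim - i)))) θ = π i ∧
    C.comp (C.comp θ (C.mulCorr (ℓ ^ (X.dim - i)))) (π (2 * X.dim - i)) = π (2 * X.dim - i)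

section Weil

variable {C : TheoryData.{u, v, 0} 𝒱 ℚ} {K : Type w} [Field K] (H : WeilTheoryData.{u, v, w} C K)

/-- `f : X ⟶ Y` is a Lefschetz map for the divisor class `ℓ` on `Y`: `dim X ≤ dim Y`, the class
`f_* [X]` is a nonzero multiple of `ℓ^(dim Y - dim X)`, and `f^* : H^i(Y) → H^i(X)` is surjective
for `i < dim X`. Examples are the inclusions of smooth complete intersections of ample divisors
proportional to `ℓ`, and cyclic coverings branched along a smooth ample divisor proportional to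
`ℓ`. -/
structure IsLefschetzMap {X Y : 𝒱.Obj} (f : X ⟶ Y) (ℓ : C.A Y) : Prop where
  le : X.dim ≤ Y.dim
  push_one : ∃ c : ℚ, c ≠ 0 ∧ C.down f 1 = c • ℓ ^ (Y.dim - X.dim)
  surjective : ∀ i : ℕ, i < X.dim → ∀ a : H.A X, H.Deg i a → ∃ b : H.A Y, H.Deg i b ∧ H.up f b = a

/-- The polarised varieties obtained from those with the property `S` by the following operations:

* curves `X` with a class `ℓ` of nonzero degree are added;
* `(X × Y, a ℓ × Y + b X × ℓ')` for `a, b ≠ 0`;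
* `(X, f^* ℓ)` for a Lefschetz map `f : X ⟶ Y` for `ℓ`. -/
inductive Tower (S : ∀ X : 𝒱.Obj, C.A X → Prop) : ∀ X : 𝒱.Obj, C.A X → Prop
  | base (X : 𝒱.Obj) (ℓ : C.A X) (h : S X ℓ) : Tower S X ℓ
  | curve (X : 𝒱.Obj) (ℓ : C.A X) (hX : X.dim = 1) (hℓ : C.Deg 1 ℓ) (q : ℚ) (hq : q ≠ 0)
      (h : HasDegree C ℓ q) : Tower S X ℓ
  | prod (X Y : 𝒱.Obj) (ℓ : C.A X) (ℓ' : C.A Y) (a b : ℚ) (ha : a ≠ 0) (hb : b ≠ 0)
      (hX : Tower S X ℓ) (hY : Tower S Y ℓ') :
      Tower S (X.prod Y) (a • C.up (fst X Y) ℓ + b • C.up (snd X Y) ℓ')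
  | map (X Y : 𝒱.Obj) (f : X ⟶ Y) (ℓ : C.A Y) (hf : IsLefschetzMap H f ℓ) (hY : Tower S Y ℓ) :
      Tower S X (C.up f ℓ)

end Weil

end Pool.Agent.V7H2.LT
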