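import Pool.Agent.Y107.SDMul
import Pool.Agent.V7H2.LT.Lef
import Pool.Agent.V7H2.LT.Defs

/-!
# The category of correspondences
-/

set_option autoImplicit false
set_option linter.unusedSectionVars false

open CategoryTheory AlgebraicGeometry

universe u v w

namespace Pool.Agent.V7H2.LT

open Pool.Agent.H914 Pool.Agent.H914.VarClass Pool.Agent.H914.VarClass.Obj Pool.Agent.W492.BB
  Pool.Agent.W550.Corr Pool.Agent.TH133 Pool.Agent.Y107

variable {k : Type u} [Field k] {𝒱 : VarClass k}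

/-- The objects of the category of correspondences. -/
structure CC (C : TheoryData.{u, v, 0} 𝒱 ℚ) where
  /-- the variety -/
  obj : 𝒱.Obj

section

variable {C : TheoryData.{u, v, 0} 𝒱 ℚ} [hC : IsChowProj C]

noncomputable instance : Category.{v} (CC C) where
  Hom X Y := C.A (X.obj.prod Y.obj)
  id X := dg C X.obj
  comp f g := C.comp f g
  id_comp f := dg_comp C f
  comp_id f := comp_dg C f
  assoc f g h := comp_assoc C f g h

noncomputable instance : Preadditive (CC C) where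
  homGroup X Y := inferInstanceAs (AddCommGroup (C.A (X.obj.prod Y.obj)))
  add_comp _ _ _ f f' g := add_comp C f f' g
  comp_add _ _ _ f g g' := comp_add C f g g'

noncomputable instance (X Y : CC C) : Module ℚ (X ⟶ Y) :=
  inferInstanceAs (Module ℚ (C.A (X.obj.prod Y.obj)))

lemma smul_comp' {X Y Z : 𝒱.Obj} (r : ℚ) (f : C.A (X.prod Y)) (g : C.A (Y.prod Z)) :
    C.comp (r • f) g = r • C.comp f g := LinearMap.map_smul₂ (compL C) r f g

lemma comp_smul' {X Y Z : 𝒱.Obj} (r : ℚ) (f : C.A (X.prod Y)) (g : C.A (Y.prod Z)) :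
    C.comp f (r • g) = r • C.comp f g := map_smul (compL C f) r g

noncomputable instance : Linear ℚ (CC C) where
  smul_comp X Y Z r f g := by
    exact smul_comp' (X := X.obj) (Y := Y.obj) (Z := Z.obj) r f g
  comp_smul X Y Z f r g := by
    exact comp_smul' (X := X.obj) (Y := Y.obj) (Z := Z.obj) r f g

/-- A correspondence as a morphism. -/
abbrev mor {X Y : 𝒱.Obj} (Γ : C.A (X.prod Y)) : (⟨X⟩ : CC C) ⟶ ⟨Y⟩ := Γ

lemma mor_comp {X Y Z : 𝒱.Obj} (Γ : C.A (X.prod Y)) (Δ : C.A (Y.prod Z)) :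
    mor Γ ≫ mor Δ = mor (C.comp Γ Δ) := rfl

/-- The correspondences of degree `r`. -/
noncomputable def cdeg (X Y : CC C) (r : ℤ) : Submodule ℚ (X ⟶ Y) := C.gr (X.obj.prod Y.obj) (X.obj.dim + r)

lemma mem_cdeg {X Y : CC C} {r : ℤ} {f : X ⟶ Y} :
    f ∈ cdeg X Y r ↔ (f : C.A (X.obj.prod Y.obj)) ∈ C.gr (X.obj.prod Y.obj) (X.obj.dim + r) :=
  Iff.rfl

lemma cdeg_comp {X Y Z : CC C} {r s : ℤ} {f : X ⟶ Y} {g : Y ⟶ Z} (hf : f ∈ cdeg X Y r)
    (hg : g ∈ cdeg Y Z s) : f ≫ g ∈ cdeg X Z (r + s) := comp_mem C hf hg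

lemma cdeg_comp' {X Y Z : CC C} {r s t : ℤ} {f : X ⟶ Y} {g : Y ⟶ Z} (hf : f ∈ cdeg X Y r)
    (hg : g ∈ cdeg Y Z s) (h : r + s = t) : f ≫ g ∈ cdeg X Z t := h ▸ cdeg_comp hf hg

lemma cdeg_id (X : CC C) : 𝟙 X ∈ cdeg X X 0 := by
  rw [mem_cdeg, add_zero]
  exact dg_mem C X.obj

/-- The endomorphisms of degree zero. -/
noncomputable def end0 (X : CC C) : Subalgebra ℚ (End X) where
  carrier := {a | (a : X ⟶ X) ∈ cdeg X X 0}
  mul_mem' {a b} ha hb := cdeg_comp' hb ha (by ring)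
  add_mem' {a b} ha hb := Submodule.add_mem (cdeg X X 0) ha hb
  algebraMap_mem' q := by
    change (algebraMap ℚ (End X) q : X ⟶ X) ∈ cdeg X X 0
    rw [Algebra.algebraMap_eq_smul_one]
    exact Submodule.smul_mem (cdeg X X 0) q (cdeg_id X)

lemma mem_end0 {X : CC C} {a : End X} : a ∈ end0 X ↔ (a : X ⟶ X) ∈ cdeg X X 0 := Iff.rfl

variable {K : Type w} [Field K] (H : WeilTheoryData.{u, v, w} C K) [hH : IsWeilProj H]

/-- The action of a correspondence on the cohomology. -/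
noncomputable def hact {X Y : CC C} (f : X ⟶ Y) : H.A X.obj →ₗ[K] H.A Y.obj :=
  H.actL (X := X.obj) (Y := Y.obj) (H.cl (X := X.obj.prod Y.obj) f)

lemma hact_apply {X Y : CC C} (f : X ⟶ Y) (a : H.A X.obj) :
    hact H f a = H.act (X := X.obj) (Y := Y.obj) (H.cl (X := X.obj.prod Y.obj) f) a := rfl

lemma hact_comp {X Y Z : CC C} (f : X ⟶ Y) (g : Y ⟶ Z) (a : H.A X.obj) :
    hact H (f ≫ g) a = hact H g (hact H f a) := actH_comp H f g a

lemma hact_id (X : CC C) (a : H.A X.obj) : hact H (𝟙 X) a = a := actH_dg H a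

lemma hact_add {X Y : CC C} (f g : X ⟶ Y) (a : H.A X.obj) :
    hact H (f + g) a = hact H f a + hact H g a := by
  have h1 := H.act_add (X := X.obj) (Y := Y.obj) (H.cl (X := X.obj.prod Y.obj) f)
    (H.cl (X := X.obj.prod Y.obj) g) a
  have h2 : H.cl (X := X.obj.prod Y.obj) ((f : C.A (X.obj.prod Y.obj)) +
    (g : C.A (X.obj.prod Y.obj))) =
      H.cl (X := X.obj.prod Y.obj) f + H.cl (X := X.obj.prod Y.obj) g := map_add _ _ _
  rw [← h2] at h1
  exact h1

lemma hact_zero {X Y : CC C} (a : H.A X.obj) : hact H (0 : X ⟶ Y) a = 0 :=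
  actH_zero H (X := X.obj) (Y := Y.obj) a

/-- The action as an additive map in the correspondence. -/
noncomputable def hactA (X Y : CC C) (a : H.A X.obj) : (X ⟶ Y) →+ H.A Y.obj where
  toFun f := hact H f a
  map_zero' := hact_zero H a
  map_add' f g := hact_add H f g a

lemma hact_sub {X Y : CC C} (f g : X ⟶ Y) (a : H.A X.obj) :
    hact H (f - g) a = hact H f a - hact H g a := map_sub (hactA H X Y a) f g

lemma hact_sum {X Y : CC C} {ι : Type*} (s : Finset ι) (f : ι → (X ⟶ Y)) (a : H.A X.obj) :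
    hact H (∑ i ∈ s, f i) a = ∑ i ∈ s, hact H (f i) a := map_sum (hactA H X Y a) f s

lemma hact_mem {X Y : CC C} {r m : ℤ} {f : X ⟶ Y} (hf : f ∈ cdeg X Y r) {a : H.A X.obj}
    (ha : a ∈ H.gr X.obj m) : hact H f a ∈ H.gr Y.obj (m + 2 * r) := actH_mem H hf ha

lemma hact_mem' {X Y : CC C} {r m m' : ℤ} {f : X ⟶ Y} (hf : f ∈ cdeg X Y r) {a : H.A X.obj}
    (ha : a ∈ H.gr X.obj m) (h : m + 2 * r = m') : hact H f a ∈ H.gr Y.obj m' :=
  h ▸ hact_mem H hf ha

variable {H}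

/-- The decomposition of the ring of endomorphisms given by a Chow-Kunneth decomposition. -/
lemma dec_of_isCK {X : 𝒱.Obj} {π : ℕ → C.A (X.prod X)} (h : IsCK H X π) :
    Dec (A := End (⟨X⟩ : CC C)) π (2 * X.dim + 1) where
  mul i j := by
    change C.comp (π j) (π i) = _
    rw [h.comp_eq]
    by_cases hij : i = j
    · rw [if_pos hij, if_pos hij.symm, hij]
    · rw [if_neg hij, if_neg (Ne.symm hij)]
  out i hi := h.out i (by omega)
  sum := h.sum

/-- Chow-Kunneth decompositions in terms of the category. -/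
lemma isCK_of_dec {X : 𝒱.Obj} {π : ℕ → C.A (X.prod X)}
    (h : Dec (A := End (⟨X⟩ : CC C)) π (2 * X.dim + 1))
    (hdeg : ∀ i, mor (π i) ∈ cdeg (⟨X⟩ : CC C) ⟨X⟩ 0)
    (hact1 : ∀ (i : ℕ) (m : ℤ) (a : H.A X), a ∈ H.gr X m → hact H (mor (π i)) a =
      if m = i then a else 0) : IsCK H X π where
  deg i := by
    have := hdeg i
    rw [mem_cdeg, add_zero] at this
    exact this
  out i hi := h.out i (by omega)
  idem i := by
    have h1 := h.mul i i
    rw [if_pos rfl] at h1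
    exact h1
  orth i j hij := by
    have h1 := h.mul j i
    rw [if_neg (Ne.symm hij)] at h1
    exact h1
  sum := h.sum
  act_self i a ha := by
    have h1 := hact1 i i a ha
    rw [if_pos rfl] at h1
    exact h1
  act_ne i m a hm ha := by
    have h1 := hact1 i m a ha
    rw [if_neg hm] at h1
    exact h1

end

section geometry

variable {C : TheoryData.{u, v, 0} 𝒱 ℚ} [hC : IsChowProj C] {X Y Z : 𝒱.Obj}

lemma cograph_comp_graph (f : X ⟶ Y) :
    C.comp (C.cograph f) (C.graph f) = C.mulCorr (C.push f 1) := by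
  rw [comp_eq_extR, extR_graph, TheoryData.cograph, ← C.push_comp, TheoryData.mulCorr,
    ← C.push_comp]
  congr 1
  have e1 : Obj.lift f (𝟙 X) ≫ prodMap (𝟙 Y) f = f ≫ Obj.lift (𝟙 Y) (𝟙 Y) := by
    apply prod_ext <;> simp [comp_lift]
  rw [e1]

lemma cograph_comp_mul (f : X ⟶ Y) (D : C.A Y) :
    C.comp (C.cograph f) (C.mulCorr (C.pull f D)) = C.comp (C.mulCorr D) (C.cograph f) := by
  rw [comp_mulCorr, mulCorr_comp, TheoryData.cograph, ← C.proj_left, ← C.proj_left,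
    ← C.pull_comp, ← C.pull_comp, ← C.pull_comp]
  have e1 : (Obj.lift f (𝟙 X) ≫ snd Y X) ≫ f = Obj.lift f (𝟙 X) ≫ fst Y X := by simp
  rw [e1]

lemma mul_comp_graph (f : X ⟶ Y) (D : C.A Y) :
    C.comp (C.mulCorr (C.pull f D)) (C.graph f) = C.comp (C.graph f) (C.mulCorr D) := by
  rw [comp_mulCorr, mulCorr_comp, TheoryData.graph, ← C.proj_left, ← C.proj_left,
    ← C.pull_comp, ← C.pull_comp, ← C.pull_comp]
  have e1 : (Obj.lift (𝟙 X) f ≫ fst X Y) ≫ f = Obj.lift (𝟙 X) f ≫ snd X Y := by simp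
  rw [e1]

lemma mulCorr_mulCorr (a b : C.A X) :
    C.comp (C.mulCorr a) (C.mulCorr b) = C.mulCorr (a * b) := by
  rw [mulCorr_comp, TheoryData.mulCorr, TheoryData.mulCorr, ← C.proj_left, ← C.pull_comp, lift_fst,
    C.pull_id]

lemma mulCorr_one : C.mulCorr (1 : C.A X) = dg C X := rfl

lemma mulCorr_smul (q : ℚ) (a : C.A X) : C.mulCorr (q • a) = q • C.mulCorr a := by
  rw [TheoryData.mulCorr, map_smul]
  rfl

lemma mulCorr_add (a b : C.A X) : C.mulCorr (a + b) = C.mulCorr a + C.mulCorr b := by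
  rw [TheoryData.mulCorr, map_add]
  rfl

/-- Powers. -/
lemma mulCorr_pow' (D : C.A X) (n : ℕ) :
    End.of (mor (C.mulCorr D)) ^ n = End.of (mor (C.mulCorr (D ^ n))) := by
  induction n with
  | zero => rw [pow_zero, pow_zero]; rfl
  | succ n ih =>
    rw [pow_succ, ih, pow_succ']
    exact mulCorr_mulCorr D (D ^ n)

lemma mulCorr_mem {D : C.A X} {r : ℤ} (hD : D ∈ C.gr X r) :
    mor (C.mulCorr D) ∈ cdeg (⟨X⟩ : CC C) ⟨X⟩ r := by
  have h := C.push_mem (Obj.lift (𝟙 X) (𝟙 X)) hD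
  have e1 : r + 1 * (((X.prod X).dim : ℤ) - (X.dim : ℤ)) = X.dim + r := by
    rw [dim_prod]; push_cast; ring
  rw [e1] at h
  exact h

lemma graph_mem (f : X ⟶ Y) :
    mor (C.graph f) ∈ cdeg (⟨X⟩ : CC C) ⟨Y⟩ ((Y.dim : ℤ) - X.dim) := by
  have h := C.push_mem (Obj.lift (𝟙 X) f) (C.one_mem X)
  have e1 : (0 : ℤ) + 1 * (((X.prod Y).dim : ℤ) - (X.dim : ℤ)) = X.dim + (Y.dim - X.dim) := by
    rw [dim_prod]; push_cast; ring
  rw [e1] at h
  exact h

lemma cograph_mem (f : X ⟶ Y) : mor (C.cograph f) ∈ cdeg (⟨Y⟩ : CC C) ⟨X⟩ 0 := by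
  have h := C.push_mem (Obj.lift f (𝟙 X)) (C.one_mem X)
  have e1 : (0 : ℤ) + 1 * (((Y.prod X).dim : ℤ) - (X.dim : ℤ)) = Y.dim + 0 := by
    rw [dim_prod]; push_cast; ring
  rw [e1] at h
  exact h

variable {K : Type w} [Field K] (H : WeilTheoryData.{u, v, w} C K) [hH : IsWeilProj H]

lemma hact_graph (f : X ⟶ Y) (a : H.A X) : hact H (mor (C.graph f)) a = H.push f a := by
  change H.act (H.cl (C.graph f)) a = _
  rw [TheoryData.graph, H.cl_push, map_one]
  exact H.act_graph f a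

lemma hact_cograph (f : X ⟶ Y) (b : H.A Y) : hact H (mor (C.cograph f)) b = H.pull f b := by
  change H.act (H.cl (C.cograph f)) b = _
  rw [TheoryData.cograph, H.cl_push, map_one]
  exact H.act_cograph f b

end geometry

end Pool.Agent.V7H2.LT
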