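import Pool.Agent.TH133.Defs

/-!
# Motives of bounded dimension: definitions
-/

set_option autoImplicit false

open CategoryTheory AlgebraicGeometry

universe u v w

namespace Pool.Agent.V7H2.LT

open Pool.Agent.H914 Pool.Agent.H914.VarClass Pool.Agent.H914.VarClass.Obj Pool.Agent.W492.BB
  Pool.Agent.W550.Corr Pool.Agent.TH133

variable {k : Type u} [Field k] {𝒱 : VarClass k}

/-- The correspondences of degree zero from `X` to `Y` which are sums of correspondences that factor,
through correspondences of degree zero, through varieties of dimension at most `i`. -/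
noncomputable def DimLE (C : TheoryData.{u, v, 0} 𝒱 ℚ) (X Y : 𝒱.Obj) (i : ℕ) :
    Submodule ℚ (C.A (X.prod Y)) :=
  Submodule.span ℚ {γ | ∃ (Z : 𝒱.Obj) (a : C.A (X.prod Z)) (b : C.A (Z.prod Y)),
    Z.dim ≤ i ∧ C.Deg X.dim a ∧ C.Deg Z.dim b ∧ γ = C.comp a b}

/-- The motives `h^i(X)` of the decomposition `π` are direct factors of sums of motives of
varieties of dimension at most `i`. -/
def Bounded (C : TheoryData.{u, v, 0} 𝒱 ℚ) {X : 𝒱.Obj} (π : ℕ → C.A (X.prod X)) : Prop :=
  ∀ i, π i ∈ DimLE C X X i

end Pool.Agent.V7H2.LT
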