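import Pool.Agent.V7H2.LT.MapThm
import Pool.Agent.V7H2.LT.ProdThm
import Pool.Agent.V7H2.LT.Curve
import Pool.Agent.Q73.LS.Murre
import Pool.Agent.V7H2.LT.FacDefs

/-!
# Motives of bounded dimension and Murre's conjectures for triangular Lefschetz decompositions
-/

set_option autoImplicit false
set_option linter.unusedSectionVars false

open CategoryTheory AlgebraicGeometry

universe u v w

namespace Pool.Agent.V7H2.LT

open Pool.Agent.H914 Pool.Agent.H914.VarClass Pool.Agent.H914.VarClass.Obj Pool.Agent.W492.BB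
  Pool.Agent.W550.Corr Pool.Agent.TH133 Pool.Agent.Y107 Pool.Agent.Q73.LS

variable {k : Type u} [Field k] {𝒱 : VarClass k}

section

variable {C : TheoryData.{u, v, 0} 𝒱 ℚ} [hC : IsChowProj C] {X Y Z W : 𝒱.Obj}

lemma DimLE.of_comp {i : ℕ} (V : 𝒱.Obj) (hV : V.dim ≤ i) {a : C.A (X.prod V)}
    {b : C.A (V.prod Y)} (ha : C.Deg X.dim a) (hb : C.Deg V.dim b) :
    C.comp a b ∈ DimLE C X Y i :=
  Submodule.subset_span ⟨V, a, b, hV, ha, hb, rfl⟩

lemma comp_deg0 {a : C.A (X.prod Y)} {b : C.A (Y.prod Z)} (ha : C.Deg X.dim a)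
    (hb : C.Deg Y.dim b) : C.Deg X.dim (C.comp a b) := by
  have := comp_mem C (e := 0) (e' := 0) (Γ := a) (Δ := b) (by rwa [add_zero]) (by rwa [add_zero])
  rwa [add_zero, add_zero] at this

lemma DimLE.comp_left {i : ℕ} {γ : C.A (Y.prod Z)} (hγ : γ ∈ DimLE C Y Z i) {a : C.A (X.prod Y)}
    (ha : C.Deg X.dim a) : C.comp a γ ∈ DimLE C X Z i := by
  have h : DimLE C Y Z i ≤ (DimLE C X Z i).comap (compL C a) := by
    refine Submodule.span_le.2 ?_
    rintro _ ⟨V, b, c, hV, hb, hc, rfl⟩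
    change C.comp a (C.comp b c) ∈ DimLE C X Z i
    rw [← comp_assoc]
    exact DimLE.of_comp V hV (comp_deg0 ha hb) hc
  exact h hγ

lemma DimLE.comp_right {i : ℕ} {γ : C.A (X.prod Y)} (hγ : γ ∈ DimLE C X Y i)
    {b : C.A (Y.prod Z)} (hb : C.Deg Y.dim b) : C.comp γ b ∈ DimLE C X Z i := by
  have h : DimLE C X Y i ≤ (DimLE C X Z i).comap ((compL C).flip b) := by
    refine Submodule.span_le.2 ?_
    rintro _ ⟨V, a, c, hV, ha, hc, rfl⟩
    change C.comp (C.comp a c) b ∈ DimLE C X Z i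
    rw [comp_assoc]
    exact DimLE.of_comp V hV ha (comp_deg0 hc hb)
  exact h hγ

lemma DimLE.of_dim {i : ℕ} (hX : X.dim ≤ i) {γ : C.A (X.prod Y)} (hγ : C.Deg X.dim γ) :
    γ ∈ DimLE C X Y i := by
  have h := DimLE.of_comp (C := C) X hX (dg_mem C X) hγ
  rwa [dg_comp] at h

lemma DimLE.mono {i j : ℕ} (hij : i ≤ j) : DimLE C X Y i ≤ DimLE C X Y j := by
  refine Submodule.span_mono ?_
  rintro _ ⟨V, a, b, hV, ha, hb, rfl⟩
  exact ⟨V, a, b, hV.trans hij, ha, hb, rfl⟩

lemma tens_deg0 {a : C.A (X.prod Y)} {b : C.A (Z.prod W)} (ha : C.Deg X.dim a)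
    (hb : C.Deg Z.dim b) : C.Deg (X.prod Z).dim (tens C a b) := by
  have h := tens_mem C ha hb
  have e1 : (((X.prod Z).dim : ℕ) : ℤ) = X.dim + Z.dim := by
    rw [dim_prod]; push_cast; ring
  rw [TheoryData.Deg, e1]
  exact h

lemma dimLE_tens {i j : ℕ} {γ : C.A (X.prod Y)} {δ : C.A (Z.prod W)} (hγ : γ ∈ DimLE C X Y i)
    (hδ : δ ∈ DimLE C Z W j) :
    tens C γ δ ∈ DimLE C (X.prod Z) (Y.prod W) (i + j) := by
  have h1 : DimLE C X Y i ≤ ⨅ δ : DimLE C Z W j,
      (DimLE C (X.prod Z) (Y.prod W) (i + j)).comap (tensL.flip (δ : C.A (Z.prod W))) := by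
    refine Submodule.span_le.2 ?_
    rintro _ ⟨V, a, b, hV, ha, hb, rfl⟩
    rw [SetLike.mem_coe, Submodule.mem_iInf]
    rintro ⟨δ, hδ⟩
    rw [Submodule.mem_comap]
    change tens C (C.comp a b) δ ∈ DimLE C (X.prod Z) (Y.prod W) (i + j)
    have h2 : DimLE C Z W j ≤
        (DimLE C (X.prod Z) (Y.prod W) (i + j)).comap (tensL (C.comp a b)) := by
      refine Submodule.span_le.2 ?_
      rintro _ ⟨V', a', b', hV', ha', hb', rfl⟩
      change tens C (C.comp a b) (C.comp a' b') ∈ DimLE C (X.prod Z) (Y.prod W) (i + j)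
      rw [← tens_comp C (ch_comm C)]
      refine DimLE.of_comp (V.prod V') ?_ (tens_deg0 ha ha') (tens_deg0 hb hb')
      rw [dim_prod]
      omega
    exact h2 hδ
  have h3 := h1 hγ
  rw [Submodule.mem_iInf] at h3
  exact h3 ⟨δ, hδ⟩

/-- Motives of dimension at most `i` have no cycles of codimension larger than `i`. -/
lemma DimLE.act {i : ℕ} {γ : C.A (X.prod Y)} (hγ : γ ∈ DimLE C X Y i) {j : ℤ} (hj : i < j)
    {z : C.A X} (hz : C.Deg j z) : C.act γ z = 0 := by
  have h : DimLE C X Y i ≤ LinearMap.ker ((actB C).flip z) := by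
    refine Submodule.span_le.2 ?_
    rintro _ ⟨V, a, b, hV, ha, hb, rfl⟩
    rw [SetLike.mem_coe, LinearMap.mem_ker]
    change C.act (C.comp a b) z = 0
    rw [C.act_comp]
    have h1 : C.act a z = 0 := by
      have h2 := act_mem' C (e := 0) (by rw [add_zero]; exact ha) hz
      rw [add_zero] at h2
      exact hC.gr_top V j _ h2 (by omega)
    rw [h1, C.act_map_zero]
  exact h hγ

variable {K : Type w} [Field K] {H : WeilTheoryData.{u, v, w} C K} [hH : IsWeilProj H]

/-- Products. -/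
lemma Bounded.prod {π : ℕ → C.A (X.prod X)} {ρ : ℕ → C.A (Z.prod Z)} (h1 : Bounded C π)
    (h2 : Bounded C ρ) : Bounded C (prodCK C π ρ) := by
  intro n
  refine Submodule.sum_mem _ fun i hi => ?_
  rw [Finset.mem_range] at hi
  have h := dimLE_tens (h1 i) (h2 (n - i))
  rwa [show i + (n - i) = n by omega] at h

/-- Curves, if there is a variety of dimension zero. -/
lemma bounded_curve {P : 𝒱.Obj} (hP : P.dim = 0) (hX : X.dim = 1) {x : C.A X}
    (hx : x ∈ C.gr X 1) (h : HasDegree C x 1) (hck : IsCK H X (cpi x)) : Bounded C (cpi x) := by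
  intro i
  rcases Nat.eq_zero_or_pos i with rfl | hi
  · obtain ⟨q, hq, hq1⟩ : ∃ q : ℚ, q ≠ 0 ∧ HasDegree C (1 : C.A P) q := by
      obtain ⟨q, hq⟩ := hC.degree P 1 (by rw [hP]; exact C.one_mem P)
      refine ⟨q, ?_, hq⟩
      obtain ⟨a, -, q', hq', h1⟩ := hC.polarized P
      rw [hP, pow_zero] at h1
      have h2 := (hq P).1
      intro h0
      rw [h0, zero_smul] at h2
      have h3 : C.down (snd P P) (C.up (fst P P) (1 : C.A P)) = q' • (1 : C.A P) := h1
      rw [h2] at h3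
      have h4 : (1 : C.A P) = 0 := by
        have := congrArg (fun z => q'⁻¹ • z) h3
        simp only [smul_zero, smul_smul, inv_mul_cancel₀ hq', one_smul] at this
        exact this.symm
      have h5 := map_one (H.cl (X := P))
      rw [h4, map_zero] at h5
      exact hH.one_ne_zero P h5.symm
    have e1 : HasDegree C ((1 : C.A P) * 1) q := by rwa [mul_one]
    have e2 : cpi x 0 = C.comp (q⁻¹ • C.ext x (1 : C.A P)) (C.ext (1 : C.A P) (1 : C.A X)) := by
      rw [smul_comp', comp_ext_ext e1, smul_smul, inv_mul_cancel₀ hq, one_smul]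
      rfl
    rw [e2]
    refine DimLE.of_comp P (by omega) ?_ ?_
    · have := ext_mem' (C := C) (show x ∈ C.gr X X.dim by rw [hX]; exact hx) (C.one_mem P)
      rw [add_zero] at this
      exact Submodule.smul_mem _ _ this
    · have := ext_mem' (C := C) (C.one_mem P) (C.one_mem X)
      rw [TheoryData.Deg, hP]
      simpa using this
  · exact DimLE.of_dim (by omega) (hck.deg i)

/-- Lefschetz maps. -/
lemma Bounded.map {f : X ⟶ Y} {π : ℕ → C.A (Y.prod Y)} (h : Bounded C π)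
    {ρ : ℕ → C.A (X.prod X)} (hρ : IsCK H X ρ) {b : C.A (X.prod Y)} (hb : C.Deg X.dim b)
    (hfac : ∀ j < X.dim, ρ j = C.comp b (C.comp (π j) (C.cograph f))) : Bounded C ρ := by
  intro j
  rcases lt_or_ge j X.dim with hj | hj
  · rw [hfac j hj]
    have h1 : C.Deg Y.dim (C.cograph f) := by
      have h2 := cograph_mem (C := C) f
      rw [mem_cdeg, add_zero] at h2
      exact h2
    exact DimLE.comp_left (DimLE.comp_right (h j) h1) hb
  · exact DimLE.of_dim hj (hρ.deg j)

end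

end Pool.Agent.V7H2.LT
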