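import Pool.Agent.V7H2.LT.Fac

/-!
# Murre's conjectures for triangular Lefschetz decompositions
-/

set_option autoImplicit false
set_option linter.unusedSectionVars false

open CategoryTheory AlgebraicGeometry

universe u v w

namespace Pool.Agent.V7H2.LT

open Pool.Agent.H914 Pool.Agent.H914.VarClass Pool.Agent.H914.VarClass.Obj Pool.Agent.W492.BB
  Pool.Agent.W550.Corr Pool.Agent.TH133 Pool.Agent.Y107 Pool.Agent.Q73.LS

variable {k : Type u} [Field k] {𝒱 : VarClass k} {C : TheoryData.{u, v, 0} 𝒱 ℚ}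
  [hC : IsChowProj C] {K : Type w} [Field K] {H : WeilTheoryData.{u, v, w} C K}
  [hH : IsWeilProj H] {X : 𝒱.Obj}

/-- The weights above the middle: reduction by the Lefschetz isomorphism. -/
lemma act_above {ℓ : C.A X} {π : ℕ → C.A (X.prod X)} (hπ : IsCK H X π)
    (hT : TriangularLefschetz C ℓ π) {j : ℕ} (hj : X.dim < j) {a : ℤ} {z : C.A X}
    (hz : C.Deg a z) (hyp : ∀ y : C.A X, C.Deg (a + X.dim - j) y → (H.cl z = 0 → H.cl y = 0) →
      j ≤ 2 * X.dim → C.act (π (2 * X.dim - j)) y = 0) : C.act (π j) z = 0 := by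
  rcases lt_or_ge (2 * X.dim) j with h1 | h1
  · rw [hπ.out j h1]
    exact C.act_zero z
  obtain ⟨θ, hθ, hθ1, -, -, hθ2⟩ := hT.iso (2 * X.dim - j) (by omega)
  rw [show 2 * X.dim - (2 * X.dim - j) = j by omega] at hθ2
  have hmem : C.Deg (a + X.dim - j) (C.act θ z) := by
    have h2 := act_mem' C (e := (X.dim : ℤ) - j) (Γ := θ) (by
      have e1 : (X.dim : ℤ) + (X.dim - j) = ((2 * X.dim - j : ℕ) : ℤ) := by
        rw [Nat.cast_sub h1]; push_cast; ring
      rw [e1]
      exact hθ) hz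
    have e2 : a + ((X.dim : ℤ) - j) = a + X.dim - j := by ring
    rwa [e2] at h2
  have h0 : C.act θ z = 0 := by
    rw [← hθ1, C.act_comp]
    refine hyp _ hmem (fun h => ?_) h1
    rw [cl_act H, h]
    exact H.act_map_zero _
  rw [← hθ2, C.act_comp, C.act_comp, h0, C.act_map_zero, C.act_map_zero]

/-- The first half of (B): no cycles of codimension `a` in weight `j > 2 a`, if `a ≤ 1` or
`dim X + a ≤ j + 1`. -/
theorem triangular_B (hP : PicardFaithful H) {ℓ : C.A X} {π : ℕ → C.A (X.prod X)}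
    (hπ : IsCK H X π) (hT : TriangularLefschetz C ℓ π) {a j : ℕ} (haj : 2 * a < j)
    (hc : a ≤ 1 ∨ X.dim + a ≤ j + 1) {z : C.A X} (hz : C.Deg a z) : C.act (π j) z = 0 := by
  by_cases ha : a ≤ 1
  · exact low_B0 hP hπ ha haj hz
  have h1 := hc.resolve_left ha
  refine act_above hπ hT (by omega) hz fun y hy _ hj => ?_
  rcases lt_or_ge (X.dim + a) j with h2 | h2
  · have h3 : C.gr X ((a : ℤ) + X.dim - j) = ⊥ := C.gr_neg X _ (by omega)
    have h4 : y = 0 := by
      rw [TheoryData.Deg, h3] at hy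
      exact (Submodule.mem_bot _).1 hy
    rw [h4, C.act_map_zero]
  · have e1 : (a : ℤ) + X.dim - j = ((X.dim + a - j : ℕ) : ℤ) := by
      rw [Nat.cast_sub h2]; push_cast; ring
    rw [e1] at hy
    exact low_B0 hP hπ (by omega) (by omega) hy

/-- (D): no homologically trivial cycles of codimension `a` in weight `j ≥ 2 a`, if `a ≤ 1` or
`dim X + a ≤ j + 1`. -/
theorem triangular_D (hP : PicardFaithful H) {ℓ : C.A X} {π : ℕ → C.A (X.prod X)}
    (hπ : IsCK H X π) (hT : TriangularLefschetz C ℓ π) {a j : ℕ} (haj : 2 * a ≤ j)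
    (hc : a ≤ 1 ∨ X.dim + a ≤ j + 1) {z : C.A X} (hz : C.Deg a z) (h0 : H.cl z = 0) :
    C.act (π j) z = 0 := by
  by_cases ha : a ≤ 1
  · exact low_D hP hπ ha haj hz h0
  have h1 := hc.resolve_left ha
  refine act_above hπ hT (by omega) hz fun y hy hy0 hj => ?_
  rcases lt_or_ge (X.dim + a) j with h2 | h2
  · have h3 : C.gr X ((a : ℤ) + X.dim - j) = ⊥ := C.gr_neg X _ (by omega)
    have h4 : y = 0 := by
      rw [TheoryData.Deg, h3] at hy
      exact (Submodule.mem_bot _).1 hy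
    rw [h4, C.act_map_zero]
  · have e1 : (a : ℤ) + X.dim - j = ((X.dim + a - j : ℕ) : ℤ) := by
      rw [Nat.cast_sub h2]; push_cast; ring
    rw [e1] at hy
    exact low_D hP hπ (by omega) (by omega) hy (hy0 h0)

/-- `F^(a + 1) CH^a(X) = 0`. -/
theorem bounded_B1 {π : ℕ → C.A (X.prod X)} (hπ : IsCK H X π) (hB : Bounded C π) (a : ℕ) :
    ckFil C π a (a + 1) = ⊥ := by
  rw [eq_bot_iff]
  intro x hx
  rw [hπ.mem_ckFil] at hx
  rw [Submodule.mem_bot]
  have h1 : x = ∑ i ∈ Finset.range (2 * X.dim + 1), C.act (π i) x := by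
    rw [← act_sum, hπ.sum, act_dg]
  rw [h1]
  refine Finset.sum_eq_zero fun i _ => ?_
  rcases lt_or_ge i a with hi | hi
  · exact DimLE.act (hB i) (by exact_mod_cast hi) hx.1
  · exact hx.2 i (by omega)

/-- `F^0 CH^a(X) = CH^a(X)`. -/
theorem triangular_F0 (hP : PicardFaithful H) {ℓ : C.A X} {π : ℕ → C.A (X.prod X)}
    (hπ : IsCK H X π) (hT : TriangularLefschetz C ℓ π) {a : ℕ} (ha : a ≤ 1 ∨ X.dim ≤ a + 2) :
    ckFil C π a 0 = C.gr X a := by
  ext x
  rw [hπ.mem_ckFil]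
  refine ⟨fun h => h.1, fun hx => ⟨hx, fun j hj => ?_⟩⟩
  exact triangular_B hP hπ hT (by omega) (by omega) hx

/-- `F^1 CH^a(X)` is the group of homologically trivial cycles. -/
theorem triangular_F1 (hP : PicardFaithful H) {ℓ : C.A X} {π : ℕ → C.A (X.prod X)}
    (hπ : IsCK H X π) (hT : TriangularLefschetz C ℓ π) {a : ℕ} (ha : a ≤ 1 ∨ X.dim ≤ a + 1)
    (x : C.A X) : x ∈ ckFil C π a 1 ↔ C.Deg a x ∧ H.cl x = 0 := by
  rw [hπ.mem_ckFil]
  constructor
  · rintro ⟨hx, h⟩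
    refine ⟨hx, ?_⟩
    have h1 := hπ.act_self (2 * a) (H.cl x) (by exact_mod_cast H.cl_mem hx)
    rw [← cl_act H, h (2 * a) (by omega), map_zero] at h1
    exact h1.symm
  · rintro ⟨hx, h0⟩
    refine ⟨hx, fun j hj => ?_⟩
    exact triangular_D hP hπ hT (by omega) (by omega) hx h0

end Pool.Agent.V7H2.LT
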